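import Pool.Agent.Lib.MP_54ccb1_al.Defs

set_option autoImplicit false

/-!
Piece A1: gates of points on lines in a tree.
-/

namespace Pool.Agent.Lib.MP_54ccb1_al

open Pool.Agent.Lib.MP_f1646b_al (IsGeo Btw CAS ActCAS RotFam BigSet Psi mu GeoPath)

section A1
variable {V S : Type*} {dt : V → V → ℕ} {L : S → ℤ → V} {κ : ℕ}

theorem btw_unique (hg : IsGeo dt) (ht : ∀ x y z w, Btw dt x w y → Btw dt x w z ∨ Btw dt z w y)
    {x y w w' : V} (h1 : Btw dt x w y) (h2 : Btw dt x w' y)
    (h3 : dt x w = dt x w') : w = w' := by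
  unfold MP_f1646b_al.Btw at h1 h2
  rcases ht x y w' w h1 with h | h
  · unfold MP_f1646b_al.Btw at h
    exact hg.eq_of _ _ (by omega)
  · unfold MP_f1646b_al.Btw at h
    exact (hg.eq_of _ _ (by omega : dt w' w = 0)).symm

/-- a point between two points of a line lies on the line -/
theorem A1.line_pt (h : TL dt L κ) {t : S} {j j' : ℤ} {m : V}
    (hm : Btw dt (L t j) m (L t j')) : ∃ i, m = L t i := by
  have hl := h.line t j j'
  have hm' := hm
  unfold MP_f1646b_al.Btw at hm'
  rcases le_total j j' with hj | hj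
  · refine ⟨j + dt (L t j) m, ?_⟩
    have h1 := h.line t j (j + dt (L t j) m)
    have h2 := h.line t (j + dt (L t j) m) j'
    refine btw_unique h.geo h.thin hm (w' := L t (j + dt (L t j) m)) ?_ ?_
    · unfold MP_f1646b_al.Btw
      omega
    · omega
  · refine ⟨j - dt (L t j) m, ?_⟩
    have h1 := h.line t j (j - dt (L t j) m)
    have h2 := h.line t (j - dt (L t j) m) j'
    refine btw_unique h.geo h.thin hm (w' := L t (j - dt (L t j) m)) ?_ ?_
    · unfold MP_f1646b_al.Btw
      omega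
    · omega

theorem exists_gate (h : TL dt L κ) (s : S) (v : V) : ∃ p, IsGate dt L s v p := by
  classical
  have hex : ∃ n, ∃ p, dt v (L s p) = n := ⟨dt v (L s 0), 0, rfl⟩
  obtain ⟨p, hp⟩ := Nat.find_spec hex
  have hmin : ∀ j, dt v (L s p) ≤ dt v (L s j) := by
    intro j
    rw [hp]
    exact Nat.find_min' hex ⟨j, rfl⟩
  refine ⟨p, fun j => ?_⟩
  obtain ⟨m, h1, h2, h3⟩ := h.med v (L s p) (L s j)
  obtain ⟨i, hi⟩ := A1.line_pt h h2
  have h4 := hmin i
  rw [← hi] at h4
  unfold MP_f1646b_al.Btw at h1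
  have h5 : dt m (L s p) = 0 := by omega
  have h6 : m = L s p := h.geo.eq_of _ _ h5
  rw [h6] at h3
  unfold MP_f1646b_al.Btw at h3
  have h7 := h.line s p j
  omega

theorem gate_unique (h : TL dt L κ) {s : S} {v : V} {p q : ℤ} (hp : IsGate dt L s v p)
    (hq : IsGate dt L s v q) : p = q := by
  have h1 := hp q
  have h2 := hq p
  omega

theorem gate_self (h : TL dt L κ) (s : S) (i : ℤ) : IsGate dt L s (L s i) i := by
  intro j
  have h1 := h.line s i j
  have h2 := h.geo.self (L s i)
  omega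

theorem gate_btw (h : TL dt L κ) {s : S} {u v : V} {p q : ℤ} (hp : IsGate dt L s u p)
    (hq : IsGate dt L s v q) (hpq : p ≠ q) :
    dt u v = dt u (L s p) + (p - q).natAbs + dt (L s q) v := by
  have h1 := hp q
  have h2 := hq p
  have h3 := h.line s p q
  have h4 : Btw dt u (L s p) (L s q) := by
    unfold MP_f1646b_al.Btw
    omega
  have h5 := h.geo.symm (L s p) v
  have h6 := h.geo.symm (L s q) v
  rcases h.thin u (L s q) v (L s p) h4 with h7 | h7
  · unfold MP_f1646b_al.Btw at h7
    omega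
  · unfold MP_f1646b_al.Btw at h7
    omega

theorem gate_line (h : TL dt L κ) {s t : S} (hst : s ≠ t) {j j' p p' : ℤ}
    (hp : IsGate dt L s (L t j) p) (hp' : IsGate dt L s (L t j') p') :
    (p - p').natAbs ≤ κ ∧ (p ≠ p' → ∃ i, L s p = L t i) := by
  by_cases hpp : p = p'
  · refine ⟨?_, fun hh => absurd hpp hh⟩
    subst hpp
    simp
  · have h1 := gate_btw h hp hp' hpp
    have h2 := hp p'
    have h3 := hp' p
    have h4 := h.geo.symm (L s p) (L t j')
    have h5 := h.geo.symm (L s p') (L t j')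
    have h6 := h.line s p p'
    have h7 : Btw dt (L t j) (L s p) (L t j') := by
      unfold MP_f1646b_al.Btw
      omega
    have h8 : Btw dt (L t j) (L s p') (L t j') := by
      unfold MP_f1646b_al.Btw
      omega
    obtain ⟨i, hi⟩ := A1.line_pt h h7
    obtain ⟨i', hi'⟩ := A1.line_pt h h8
    exact ⟨h.ovl s t hst p p' i i' hi hi', fun _ => ⟨i, hi⟩⟩

theorem gate_smul {G : Type*} [Group G] [MulAction G V] [MulAction G S]
    (hinv : ∀ (g : G) x y, dt (g • x) (g • y) = dt x y)
    {s : S} {v : V} {p c : ℤ} {g : G} (hp : IsGate dt L s v p)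
    (hc : ∀ i, g • L s i = L (g • s) (i + c)) : IsGate dt L (g • s) (g • v) (p + c) := by
  intro j
  have h1 := hp (j - c)
  have h2 := hc (j - c)
  have h3 := hc p
  rw [sub_add_cancel] at h2
  rw [← h2, ← h3, hinv, hinv, h1]
  omega

end A1

end Pool.Agent.Lib.MP_54ccb1_al
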