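import Pool.Agent.Lib.MP_54ccb1_al.Defs

set_option autoImplicit false

namespace Pool.Agent.Lib.MP_54ccb1_al

open Pool.Agent.Lib.MP_f1646b_al (IsGeo Btw CAS ActCAS RotFam BigSet Psi mu GeoPath isGeo_dist)

section A2
variable {V S : Type*} {dt : V → V → ℕ} {L : S → ℤ → V} {κ : ℕ}

namespace A2

theorem adj_ll (h : IsGeo dt) {u v : V} : (cG dt L).Adj (Sum.inl u) (Sum.inl v) ↔ dt u v = 1 := by
  unfold cG
  rw [SimpleGraph.fromRel_adj]
  constructor
  · rintro ⟨-, (⟨u', v', h1, h2, h3⟩ | ⟨s, i, h1, h2⟩) | (⟨u', v', h1, h2, h3⟩ | ⟨s, i, h1, h2⟩)⟩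
    · simp only [Sum.inl.injEq] at h1 h2; rw [h1, h2]; exact h3
    · simp at h2
    · simp only [Sum.inl.injEq] at h1 h2; rw [h1, h2, h.symm]; exact h3
    · simp at h2
  · intro h1
    refine ⟨?_, Or.inl (Or.inl ⟨u, v, rfl, rfl, h1⟩)⟩
    intro h2
    simp only [Sum.inl.injEq] at h2
    rw [h2, h.self] at h1
    omega

theorem adj_lr {u : V} {s : S} : (cG dt L).Adj (Sum.inl u) (Sum.inr s) ↔ ∃ i, u = L s i := by
  unfold cG
  rw [SimpleGraph.fromRel_adj]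
  constructor
  · rintro ⟨-, (⟨u', v', h1, h2, h3⟩ | ⟨s', i, h1, h2⟩) | (⟨u', v', h1, h2, h3⟩ | ⟨s', i, h1, h2⟩)⟩
    · simp at h2
    · simp only [Sum.inl.injEq, Sum.inr.injEq] at h1 h2
      subst h2
      exact ⟨i, h1⟩
    · simp at h1
    · simp at h1
  · rintro ⟨i, rfl⟩
    exact ⟨by simp, Or.inl (Or.inr ⟨s, i, rfl, rfl⟩)⟩

theorem adj_rr {s t : S} : ¬ (cG dt L).Adj (Sum.inr s) (Sum.inr t) := by
  unfold cG
  rw [SimpleGraph.fromRel_adj]
  rintro ⟨-, (⟨u', v', h1, h2, h3⟩ | ⟨s', i, h1, h2⟩) | (⟨u', v', h1, h2, h3⟩ | ⟨s', i, h1, h2⟩)⟩ <;>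
    simp at h1

theorem reach_ll (h : IsGeo dt) : ∀ (n : ℕ) (u v : V), dt u v = n →
    (cG dt L).Reachable (Sum.inl u) (Sum.inl v) := by
  intro n
  induction n with
  | zero =>
    intro u v huv
    rw [h.eq_of u v huv]
  | succ n ih =>
    intro u v huv
    obtain ⟨w, h1, h2⟩ := h.geo u v 1 (by omega)
    exact ((adj_ll h).2 h1).reachable.trans (ih w v (by omega))

theorem reach_r (s : S) : (cG dt L).Reachable (Sum.inr s) (Sum.inl (L s 0)) :=
  (adj_lr.2 ⟨0, rfl⟩ : (cG dt L).Adj (Sum.inl (L s 0)) (Sum.inr s)).symm.reachable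

theorem conn [Nonempty V] (h : IsGeo dt) : (cG dt L).Connected := by
  obtain ⟨v0⟩ := ‹Nonempty V›
  have hall : ∀ x : V ⊕ S, (cG dt L).Reachable (Sum.inl v0) x := by
    rintro (v | s)
    · exact reach_ll h _ v0 v rfl
    · exact (reach_ll h _ v0 (L s 0) rfl).trans (reach_r s).symm
  have : Nonempty (V ⊕ S) := ⟨Sum.inl v0⟩
  exact ⟨fun x y => (hall x).symm.trans (hall y)⟩

end A2

theorem cd_geo [Nonempty V] (h : TL dt L κ) : IsGeo (cd dt L) :=
  isGeo_dist _ (A2.conn h.geo)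

theorem cd_ll (h : TL dt L κ) (u v : V) :
    cd dt L (Sum.inl u) (Sum.inl v) = 1 ↔ dt u v = 1 := by
  unfold cd
  rw [SimpleGraph.dist_eq_one_iff_adj, A2.adj_ll h.geo]

theorem cd_lr (_h : TL dt L κ) (u : V) (s : S) :
    cd dt L (Sum.inl u) (Sum.inr s) = 1 ↔ ∃ i, u = L s i := by
  unfold cd
  rw [SimpleGraph.dist_eq_one_iff_adj, A2.adj_lr]

theorem cd_rr (_h : TL dt L κ) (s t : S) : cd dt L (Sum.inr s) (Sum.inr t) ≠ 1 := by
  unfold cd
  rw [Ne, SimpleGraph.dist_eq_one_iff_adj]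
  exact A2.adj_rr

namespace A2

variable {G : Type*} [Group G] [MulAction G V] [MulAction G S]

theorem adj_smul (hinv : ∀ (g : G) x y, dt (g • x) (g • y) = dt x y)
    (heqv : ∀ (g : G) s, ∃ c : ℤ, ∀ i, g • L s i = L (g • s) (i + c)) (g : G) (x y : V ⊕ S)
    (h : (cG dt L).Adj x y) : (cG dt L).Adj (g • x) (g • y) := by
  unfold cG at h ⊢
  rw [SimpleGraph.fromRel_adj] at h ⊢
  have key : ∀ x y : V ⊕ S, CAdj dt L x y → CAdj dt L (g • x) (g • y) := by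
    rintro x y (⟨u, v, rfl, rfl, h3⟩ | ⟨s, i, rfl, rfl⟩)
    · exact Or.inl ⟨g • u, g • v, rfl, rfl, by rw [hinv]; exact h3⟩
    · obtain ⟨c, hc⟩ := heqv g s
      refine Or.inr ⟨g • s, i + c, ?_, rfl⟩
      rw [← hc]; rfl
  refine ⟨fun h1 => h.1 (MulAction.injective g h1), ?_⟩
  rcases h.2 with h1 | h1
  · exact Or.inl (key _ _ h1)
  · exact Or.inr (key _ _ h1)

end A2

theorem cd_inv {G : Type*} [Group G] [MulAction G V] [MulAction G S]
    (hinv : ∀ (g : G) x y, dt (g • x) (g • y) = dt x y)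
    (heqv : ∀ (g : G) s, ∃ c : ℤ, ∀ i, g • L s i = L (g • s) (i + c)) (g : G) (x y : V ⊕ S) :
    cd dt L (g • x) (g • y) = cd dt L x y := by
  have hle : ∀ (g : G) (x y : V ⊕ S), (cG dt L).Reachable x y →
      (cG dt L).Reachable (g • x) (g • y) ∧ cd dt L (g • x) (g • y) ≤ cd dt L x y := by
    intro g x y hr
    obtain ⟨p, hp⟩ := hr.exists_walk_length_eq_dist
    let f : cG dt L →g cG dt L := ⟨fun z => g • z, fun {a b} hab => A2.adj_smul hinv heqv g a b hab⟩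
    refine ⟨(p.map f).reachable, ?_⟩
    have := SimpleGraph.dist_le (p.map f)
    rw [SimpleGraph.Walk.length_map, hp] at this
    exact this
  by_cases hr : (cG dt L).Reachable x y
  · obtain ⟨h1, h2⟩ := hle g x y hr
    obtain ⟨-, h3⟩ := hle g⁻¹ _ _ h1
    rw [inv_smul_smul, inv_smul_smul] at h3
    exact le_antisymm h2 h3
  · have hr' : ¬ (cG dt L).Reachable (g • x) (g • y) := by
      intro h1
      obtain ⟨h2, -⟩ := hle g⁻¹ _ _ h1
      rw [inv_smul_smul, inv_smul_smul] at h2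
      exact hr h2
    unfold cd
    rw [SimpleGraph.dist_eq_zero_of_not_reachable hr, SimpleGraph.dist_eq_zero_of_not_reachable hr']

end A2

end Pool.Agent.Lib.MP_54ccb1_al
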