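import Pool.Agent.Lib.MP_54ccb1_al.A1
import Pool.Agent.Lib.MP_54ccb1_al.A2

set_option autoImplicit false

namespace Pool.Agent.Lib.MP_54ccb1_al

open Pool.Agent.Lib.MP_f1646b_al (IsGeo Btw CAS ActCAS RotFam BigSet Psi mu GeoPath)

/-! ### piece A3: bounded projections -/

namespace A3

variable {V S : Type*} {dt : V → V → ℕ} {L : S → ℤ → V} {κ : ℕ}

theorem pr_nonempty (h : TL dt L κ) (s : S) (x : V ⊕ S) : ∃ p, Pr dt L s x p := by
  rcases x with v | t
  · exact exists_gate h s v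
  · obtain ⟨p, hp⟩ := exists_gate h s (L t 0)
    exact ⟨p, 0, hp⟩

/-- two lines which meet have apices at distance at most two -/
theorem meet_le [Nonempty V] (h : TL dt L κ) {s t : S} {p i : ℤ} (hp : L s p = L t i) :
    cd dt L (Sum.inr t) (Sum.inr s) ≤ 2 := by
  have hg := cd_geo h
  have h1 : cd dt L (Sum.inl (L s p)) (Sum.inr s) = 1 := (cd_lr h _ _).2 ⟨p, rfl⟩
  have h2 : cd dt L (Sum.inl (L s p)) (Sum.inr t) = 1 := (cd_lr h _ _).2 ⟨i, hp⟩
  have h3 := hg.tri (Sum.inr t) (Sum.inl (L s p)) (Sum.inr s)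
  have h4 := hg.symm (Sum.inr t) (Sum.inl (L s p))
  omega

theorem same [Nonempty V] (h : TL dt L κ) {s : S} {x : V ⊕ S} (hx : x ≠ Sum.inr s) {p q : ℤ}
    (hp : Pr dt L s x p) (hq : Pr dt L s x q) :
    (p - q).natAbs ≤ κ ∧ (3 ≤ cd dt L x (Sum.inr s) → p = q) := by
  rcases x with v | t
  · have hp' : IsGate dt L s v p := hp
    have hq' : IsGate dt L s v q := hq
    have e := gate_unique h hp' hq'
    subst e
    exact ⟨by omega, fun _ => rfl⟩
  · obtain ⟨j, hj⟩ := hp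
    obtain ⟨j', hj'⟩ := hq
    have hst : s ≠ t := fun e => hx (by rw [e])
    obtain ⟨h1, h2⟩ := gate_line h hst hj hj'
    refine ⟨h1, fun h3 => ?_⟩
    by_contra hne
    obtain ⟨i, hi⟩ := h2 hne
    have := meet_le h hi
    omega

theorem step [Nonempty V] (h : TL dt L κ) {s : S} {x y : V ⊕ S} (hx : x ≠ Sum.inr s)
    (hy : y ≠ Sum.inr s) (hxy : cd dt L x y = 1) {p q : ℤ}
    (hp : Pr dt L s x p) (hq : Pr dt L s y q) :
    (p - q).natAbs ≤ κ ∧
      (3 ≤ cd dt L x (Sum.inr s) → 3 ≤ cd dt L y (Sum.inr s) → p = q) := by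
  have hg := cd_geo h
  rcases x with u | t <;> rcases y with v | t'
  · have h1 : dt u v = 1 := (cd_ll h u v).1 hxy
    have hp' : IsGate dt L s u p := hp
    have hq' : IsGate dt L s v q := hq
    by_cases hpq : p = q
    · subst hpq
      exact ⟨by omega, fun _ _ => rfl⟩
    · have h2 := gate_btw h hp' hq' hpq
      have h3 := h.one_le
      have h4 : (p - q).natAbs ≠ 0 := by omega
      refine ⟨by omega, fun h5 _ => ?_⟩
      exfalso
      have h6 : dt u (L s p) = 0 := by omega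
      have h7 : u = L s p := h.geo.eq_of _ _ h6
      have h8 : cd dt L (Sum.inl u) (Sum.inr s) = 1 := (cd_lr h _ _).2 ⟨p, h7⟩
      omega
  · obtain ⟨i, hi⟩ := (cd_lr h u t').1 hxy
    have hp' : IsGate dt L s u p := hp
    rw [hi] at hp'
    obtain ⟨j', hj'⟩ := hq
    have hst : s ≠ t' := fun e => hy (by rw [e])
    obtain ⟨h1, h2⟩ := gate_line h hst hp' hj'
    refine ⟨h1, fun _ h3 => ?_⟩
    by_contra hne
    obtain ⟨k, hk⟩ := h2 hne
    have := meet_le h hk
    omega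
  · rw [hg.symm] at hxy
    obtain ⟨i, hi⟩ := (cd_lr h v t).1 hxy
    have hq' : IsGate dt L s v q := hq
    rw [hi] at hq'
    obtain ⟨j, hj⟩ := hp
    have hst : s ≠ t := fun e => hx (by rw [e])
    obtain ⟨h1, h2⟩ := gate_line h hst hj hq'
    refine ⟨h1, fun h3 _ => ?_⟩
    by_contra hne
    obtain ⟨k, hk⟩ := h2 hne
    have := meet_le h hk
    omega
  · exact absurd hxy (cd_rr h t t')

/-- along a geodesic path -/
theorem along [Nonempty V] (h : TL dt L κ) {s : S} {x y : V ⊕ S} (γ : ℕ → V ⊕ S)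
    (hγ : GeoPath (cd dt L) γ x y) (hav : ∀ i ≤ cd dt L x y, γ i ≠ Sum.inr s) (i : ℕ) (k : ℕ) :
    i + k ≤ cd dt L x y → ∀ {p q : ℤ}, Pr dt L s (γ i) p → Pr dt L s (γ (i + k)) q →
      (p - q).natAbs ≤ k * κ + κ ∧
      ((∀ m, i ≤ m → m ≤ i + k → 3 ≤ cd dt L (γ m) (Sum.inr s)) → p = q) := by
  induction k with
  | zero =>
    intro hk p q hp hq
    rw [Nat.add_zero] at hq hk
    obtain ⟨h1, h2⟩ := same h (hav i hk) hp hq
    exact ⟨by omega, fun h3 => h2 (h3 i le_rfl (by omega))⟩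
  | succ k ih =>
    intro hk p q hp hq
    obtain ⟨r, hr⟩ := pr_nonempty h s (γ (i + k))
    obtain ⟨h1, h2⟩ := ih (by omega) hp hr
    have h3 : cd dt L (γ (i + k)) (γ (i + (k + 1))) = 1 := by
      rw [hγ.2.2 (i + k) (i + (k + 1)) (by omega) hk]
      omega
    obtain ⟨h4, h5⟩ := step h (hav _ (by omega)) (hav _ hk) h3 hr hq
    have h6 : (k + 1) * κ = k * κ + κ := by ring
    refine ⟨by omega, fun h7 => ?_⟩
    rw [h2 fun m hm hm' => h7 m hm (by omega)]
    exact h5 (h7 _ (by omega) (by omega)) (h7 _ (by omega) le_rfl)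

end A3

section A3
variable {V S : Type*} {dt : V → V → ℕ} {L : S → ℤ → V} {κ : ℕ}

theorem bcp [Nonempty V] (h : TL dt L κ) {s : S} {x y : V ⊕ S} (γ : ℕ → V ⊕ S)
    (hγ : GeoPath (cd dt L) γ x y) (hav : ∀ i ≤ cd dt L x y, γ i ≠ Sum.inr s) {p q : ℤ}
    (hp : Pr dt L s x p) (hq : Pr dt L s y q) : (p - q).natAbs ≤ 7 * κ := by
  classical
  have hg := cd_geo h
  set D := cd dt L x y with hD
  have hp0 : Pr dt L s (γ 0) p := by rw [hγ.1]; exact hp
  have hqD : Pr dt L s (γ D) q := by rw [hγ.2.1]; exact hq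
  by_cases hne : ∃ j, j ≤ D ∧ cd dt L (γ j) (Sum.inr s) ≤ 2
  · set j0 := Nat.find hne with hj0
    have h0 : j0 ≤ D ∧ cd dt L (γ j0) (Sum.inr s) ≤ 2 := Nat.find_spec hne
    have h0' : ∀ m, m < j0 → m ≤ D → 3 ≤ cd dt L (γ m) (Sum.inr s) := by
      intro m hm hmD
      by_contra hcon
      exact Nat.find_min hne hm ⟨hmD, by omega⟩
    -- the last index
    have hne' : ∃ k, k ≤ D ∧ cd dt L (γ (D - k)) (Sum.inr s) ≤ 2 :=
      ⟨D - j0, by omega, by
        have : D - (D - j0) = j0 := by omega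
        rw [this]; exact h0.2⟩
    set k1 := Nat.find hne' with hk1
    have h1 : k1 ≤ D ∧ cd dt L (γ (D - k1)) (Sum.inr s) ≤ 2 := Nat.find_spec hne'
    have h1' : ∀ m, D - k1 < m → m ≤ D → 3 ≤ cd dt L (γ m) (Sum.inr s) := by
      intro m hm hmD
      by_contra hcon
      refine Nat.find_min hne' (m := D - m) (by omega) ⟨by omega, ?_⟩
      have : D - (D - m) = m := by omega
      rw [this]; omega
    set j1 := D - k1 with hj1
    have hle : j0 ≤ j1 := by
      by_contra hcon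
      have := h1' j0 (by omega) h0.1
      omega
    have hdiff : j1 - j0 ≤ 4 := by
      have e1 := hγ.2.2 j0 j1 hle (by omega)
      have e2 := hg.tri (γ j0) (Sum.inr s) (γ j1)
      have e3 := hg.symm (Sum.inr s) (γ j1)
      have e4 := h1.2
      have e5 := h0.2
      omega
    -- left end
    obtain ⟨i0, hi0, hi0', hpi⟩ : ∃ i0, i0 ≤ j0 ∧ j0 ≤ i0 + 1 ∧ Pr dt L s (γ i0) p := by
      rcases Nat.eq_zero_or_pos j0 with hz | hz
      · exact ⟨0, by omega, by omega, hp0⟩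
      · obtain ⟨r, hr⟩ := A3.pr_nonempty h s (γ (0 + (j0 - 1)))
        have e := (A3.along h γ hγ hav 0 (j0 - 1) (by omega) hp0 hr).2
          (fun m _ hm => h0' m (by omega) (by omega))
        refine ⟨j0 - 1, by omega, by omega, ?_⟩
        rw [e]
        rwa [Nat.zero_add] at hr
    obtain ⟨i1, hi1, hi1', hi1D, hqi⟩ : ∃ i1, j1 ≤ i1 ∧ i1 ≤ j1 + 1 ∧ i1 ≤ D ∧
        Pr dt L s (γ i1) q := by
      rcases Nat.lt_or_ge j1 D with hlt | hge
      · obtain ⟨r, hr⟩ := A3.pr_nonempty h s (γ (j1 + 1))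
        have hqD' : Pr dt L s (γ (j1 + 1 + (D - (j1 + 1)))) q := by
          have : j1 + 1 + (D - (j1 + 1)) = D := by omega
          rw [this]; exact hqD
        have e := (A3.along h γ hγ hav (j1 + 1) (D - (j1 + 1)) (by omega) hr hqD').2
          (fun m hm hm' => h1' m (by omega) (by omega))
        refine ⟨j1 + 1, by omega, by omega, by omega, ?_⟩
        rw [← e]
        exact hr
      · refine ⟨D, by omega, by omega, le_rfl, hqD⟩
    have hqi' : Pr dt L s (γ (i0 + (i1 - i0))) q := by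
      have : i0 + (i1 - i0) = i1 := by omega
      rw [this]; exact hqi
    have hfin := (A3.along h γ hγ hav i0 (i1 - i0) (by omega) hpi hqi').1
    have h6 : i1 - i0 ≤ 6 := by omega
    have h7 : (i1 - i0) * κ ≤ 6 * κ := Nat.mul_le_mul_right _ h6
    omega
  · have hfar : ∀ m, m ≤ D → 3 ≤ cd dt L (γ m) (Sum.inr s) := by
      intro m hm
      by_contra hcon
      exact hne ⟨m, hm, by omega⟩
    have hqD' : Pr dt L s (γ (0 + D)) q := by rw [Nat.zero_add]; exact hqD
    have e := (A3.along h γ hγ hav 0 D (by omega) hp0 hqD').2 (fun m _ hm => hfar m (by omega))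
    subst e
    omega

end A3

end Pool.Agent.Lib.MP_54ccb1_al
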