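import Pool.Agent.Lib.MP_54ccb1_al.A1
import Pool.Agent.Lib.MP_54ccb1_al.A2
import Pool.Agent.Lib.MP_54ccb1_al.A3
import Pool.Agent.Lib.MP_f1646b_al.Betw
import Pool.Agent.Lib.MP_f1646b_al.P01

set_option autoImplicit false

namespace Pool.Agent.Lib.MP_54ccb1_al

open Pool.Agent.Lib.MP_f1646b_al (IsGeo Btw CAS ActCAS RotFam BigSet Psi mu GeoPath)

/-! ### piece A4a: the positions where geodesics leave a line -/

namespace A4a

variable {V S : Type*} {dt : V → V → ℕ} {L : S → ℤ → V} {κ : ℕ}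

/-- there is a geodesic path from a leaving point to `x`, and it avoids the apex -/
theorem exists_avoid [Nonempty V] (h : TL dt L κ) {s : S} {x : V ⊕ S} {i : ℤ}
    (hi : i ∈ In dt L s x) :
    ∃ γ : ℕ → V ⊕ S, GeoPath (cd dt L) γ (Sum.inl (L s i)) x ∧
      ∀ k ≤ cd dt L (Sum.inl (L s i)) x, γ k ≠ Sum.inr s := by
  have hg := cd_geo h
  obtain ⟨γ, hγ, -⟩ := Pool.Agent.Lib.MP_f1646b_al.exists_geoPath hg (Sum.inl (L s i)) x
    (Sum.inl (L s i)) (Pool.Agent.Lib.MP_f1646b_al.btw_left hg _ _)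
  refine ⟨γ, hγ, fun k hk hks => ?_⟩
  have hi' : cd dt L (Sum.inl (L s i)) x + 1 = cd dt L (Sum.inr s) x := hi
  have h1 := hγ.2.2 k _ hk le_rfl
  rw [hγ.2.1, hks] at h1
  omega

/-- two nonempty bounded sets of integers whose elements are close have close minima and maxima -/
theorem close_sets {A B : Set ℤ} (hA : A.Nonempty) (hB : B.Nonempty) (hAl : BddBelow A)
    (hAu : BddAbove A) (hBl : BddBelow B) (hBu : BddAbove B) {c : ℕ}
    (hc : ∀ i ∈ A, ∀ j ∈ B, (i - j).natAbs ≤ c) :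
    (sInf A + sSup A - (sInf B + sSup B)).natAbs ≤ 2 * c := by
  have h1 := hc _ (Int.csInf_mem hA hAl) _ (Int.csInf_mem hB hBl)
  have h2 := hc _ (Int.csSup_mem hA hAu) _ (Int.csSup_mem hB hBu)
  omega

theorem bdd_of_close {A : Set ℤ} {c : ℕ} (hc : ∀ i ∈ A, ∀ j ∈ A, (i - j).natAbs ≤ c)
    (hA : A.Nonempty) : BddBelow A ∧ BddAbove A := by
  obtain ⟨a, ha⟩ := hA
  refine ⟨⟨a - c, fun i hi => ?_⟩, ⟨a + c, fun i hi => ?_⟩⟩
  · have := hc a ha i hi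
    omega
  · have := hc a ha i hi
    omega

end A4a

section A4
variable {V S : Type*} {dt : V → V → ℕ} {L : S → ℤ → V} {κ : ℕ}

theorem in_nonempty [Nonempty V] (h : TL dt L κ) {s : S} {x : V ⊕ S} (hx : x ≠ Sum.inr s) :
    (In dt L s x).Nonempty := by
  have hg := cd_geo h
  obtain ⟨w, hw, hw1⟩ := Pool.Agent.Lib.MP_f1646b_al.exists_adj hg hx.symm
  rcases w with v | t
  · rw [hg.symm] at hw1
    obtain ⟨i, rfl⟩ := (cd_lr h v s).1 hw1
    refine ⟨i, ?_⟩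
    have h2 : cd dt L (Sum.inr s) (Sum.inl (L s i)) + cd dt L (Sum.inl (L s i)) x
        = cd dt L (Sum.inr s) x := hw
    rw [hg.symm (Sum.inr s) (Sum.inl (L s i)), hw1] at h2
    change cd dt L (Sum.inl (L s i)) x + 1 = cd dt L (Sum.inr s) x
    omega
  · exact absurd hw1 (cd_rr h s t)

theorem in_pr [Nonempty V] (h : TL dt L κ) {s : S} {x : V ⊕ S} (hx : x ≠ Sum.inr s) {i q : ℤ}
    (hi : i ∈ In dt L s x) (hq : Pr dt L s x q) : (i - q).natAbs ≤ 7 * κ := by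
  obtain ⟨γ, hγ, hav⟩ := A4a.exists_avoid h hi
  have hp : Pr dt L s (Sum.inl (L s i)) i := gate_self h s i
  exact bcp h γ hγ hav hp hq

theorem in_diam [Nonempty V] (h : TL dt L κ) {s : S} {x : V ⊕ S} (hx : x ≠ Sum.inr s) {i j : ℤ}
    (hi : i ∈ In dt L s x) (hj : j ∈ In dt L s x) : (i - j).natAbs ≤ 14 * κ := by
  obtain ⟨q, hq⟩ := A3.pr_nonempty h s x
  have h1 := in_pr h hx hi hq
  have h2 := in_pr h hx hj hq
  omega

theorem in_avoid [Nonempty V] (h : TL dt L κ) {s : S} {x y : V ⊕ S} (hx : x ≠ Sum.inr s)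
    (hy : y ≠ Sum.inr s) (γ : ℕ → V ⊕ S) (hγ : GeoPath (cd dt L) γ x y)
    (hav : ∀ i ≤ cd dt L x y, γ i ≠ Sum.inr s) {i j : ℤ}
    (hi : i ∈ In dt L s x) (hj : j ∈ In dt L s y) : (i - j).natAbs ≤ 21 * κ := by
  obtain ⟨p, hp⟩ := A3.pr_nonempty h s x
  obtain ⟨q, hq⟩ := A3.pr_nonempty h s y
  have h1 := in_pr h hx hi hp
  have h2 := in_pr h hy hj hq
  have h3 := bcp h γ hγ hav hp hq
  omega

theorem mS_close [Nonempty V] (h : TL dt L κ) {s : S} {x y : V ⊕ S} (hx : x ≠ Sum.inr s)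
    (hy : y ≠ Sum.inr s) {c : ℕ}
    (hc : ∀ i ∈ In dt L s x, ∀ j ∈ In dt L s y, (i - j).natAbs ≤ c) :
    (mS dt L s x - mS dt L s y).natAbs ≤ 2 * c := by
  have hx1 := in_nonempty h hx
  have hy1 := in_nonempty h hy
  have hx2 := A4a.bdd_of_close (fun i hi j hj => in_diam h hx hi hj) hx1
  have hy2 := A4a.bdd_of_close (fun i hi j hj => in_diam h hy hi hj) hy1
  exact A4a.close_sets hx1 hy1 hx2.1 hx2.2 hy2.1 hy2.2 hc

end A4

end Pool.Agent.Lib.MP_54ccb1_al
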