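import Pool.Agent.Lib.MP_54ccb1_al.A2
import Pool.Agent.Lib.MP_54ccb1_al.A4a
import Pool.Agent.Lib.MP_f1646b_al.P01

set_option autoImplicit false

/-!
Piece A4b: the tree with apices is a space with cut apices.
-/

namespace Pool.Agent.Lib.MP_54ccb1_al

open Pool.Agent.Lib.MP_f1646b_al (IsGeo Btw CAS ActCAS RotFam BigSet Psi mu GeoPath
  exists_geoPath btw_left dist_pos_of_ne)

namespace A4b

variable {V S : Type*} {dt : V → V → ℕ} {L : S → ℤ → V} {κ : ℕ}

theorem ang_inr (s : S) (x y : V ⊕ S) :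
    ang dt L (Sum.inr s) x y = (mS dt L s x - mS dt L s y).natAbs := rfl

/-- the basic estimate -/
theorem small [Nonempty V] (h : TL dt L κ) {s : S} {x y : V ⊕ S} (hx : x ≠ Sum.inr s)
    (hy : y ≠ Sum.inr s) (γ : ℕ → V ⊕ S) (hγ : GeoPath (cd dt L) γ x y)
    (hav : ∀ i ≤ cd dt L x y, γ i ≠ Sum.inr s) :
    ang dt L (Sum.inr s) x y ≤ 42 * κ := by
  have h1 := mS_close h hx hy (c := 21 * κ)
    (fun i hi j hj => in_avoid h hx hy γ hγ hav hi hj)
  rw [ang_inr]
  omega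

theorem k1' [Nonempty V] (h : TL dt L κ) {s : S} {x y w : V ⊕ S} (hx : x ≠ Sum.inr s)
    (hy : y ≠ Sum.inr s) (hα : 42 * κ < ang dt L (Sum.inr s) x y)
    (hw : Btw (cd dt L) x w y) :
    Btw (cd dt L) x (Sum.inr s) w ∨ Btw (cd dt L) w (Sum.inr s) y := by
  have hg := cd_geo h
  obtain ⟨γ, hγ, hγw⟩ := exists_geoPath hg x y w hw
  have hex : ∃ i ≤ cd dt L x y, γ i = Sum.inr s := by
    by_contra hcon
    push Not at hcon
    have := small h hx hy γ hγ hcon
    omega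
  obtain ⟨i, hi, hic⟩ := hex
  obtain ⟨g0, g1, g2⟩ := hγ
  have hwle : cd dt L x w ≤ cd dt L x y := by unfold MP_f1646b_al.Btw at hw; omega
  have a0 : cd dt L x (γ i) = i := by
    have := g2 0 i (Nat.zero_le _) hi
    rw [g0] at this; omega
  have a1 : cd dt L (γ i) y = cd dt L x y - i := by
    have := g2 i _ hi le_rfl
    rw [g1] at this; exact this
  rw [← hic]
  rcases le_total i (cd dt L x w) with hle | hle
  · left
    have := g2 i _ hle hwle
    rw [hγw] at this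
    unfold MP_f1646b_al.Btw; omega
  · right
    have := g2 _ i hle hi
    rw [hγw] at this
    unfold MP_f1646b_al.Btw at hw ⊢; omega

theorem k1 [Nonempty V] (h : TL dt L κ) {s : S} {x y : V ⊕ S} (hx : x ≠ Sum.inr s)
    (hy : y ≠ Sum.inr s) (hα : 42 * κ < ang dt L (Sum.inr s) x y) :
    Btw (cd dt L) x (Sum.inr s) y := by
  have hg := cd_geo h
  rcases k1' h hx hy hα (btw_left hg x y) with h3 | h3
  · exfalso
    unfold MP_f1646b_al.Btw at h3
    rw [hg.self] at h3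
    exact hx (hg.eq_of _ _ (by omega))
  · exact h3

theorem out [Nonempty V] (h : TL dt L κ) (s : S) (i : ℤ) :
    cd dt L (Sum.inr s) (Sum.inl (L s i)) = 1 := by
  rw [(cd_geo h).symm]
  exact (cd_lr h _ s).2 ⟨i, rfl⟩

/-- `k2`: the intervals agree -/
theorem in_eq [Nonempty V] (h : TL dt L κ) {s t : S} {x : V ⊕ S}
    (hst : (Sum.inr s : V ⊕ S) ≠ Sum.inr t) (hxt : x ≠ Sum.inr t)
    (hα : 42 * κ < ang dt L (Sum.inr t) (Sum.inr s) x) :
    In dt L s (Sum.inr t) = In dt L s x := by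
  have hg := cd_geo h
  have hb := k1 h hst hxt hα
  ext i
  have a3 := out h s i
  constructor
  · intro hi
    have hi' : cd dt L (Sum.inl (L s i)) (Sum.inr t) + 1 = cd dt L (Sum.inr s) (Sum.inr t) := hi
    show cd dt L (Sum.inl (L s i)) x + 1 = cd dt L (Sum.inr s) x
    have a1 := hg.tri (Sum.inl (L s i)) (Sum.inr t) x
    have a2 := hg.tri (Sum.inr s) (Sum.inl (L s i)) x
    unfold MP_f1646b_al.Btw at hb
    omega
  · intro hi
    have hi' : cd dt L (Sum.inl (L s i)) x + 1 = cd dt L (Sum.inr s) x := hi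
    show cd dt L (Sum.inl (L s i)) (Sum.inr t) + 1 = cd dt L (Sum.inr s) (Sum.inr t)
    have hbu : Btw (cd dt L) (Sum.inr s) (Sum.inl (L s i)) x := by unfold MP_f1646b_al.Btw; omega
    rcases k1' h hst hxt hα hbu with h3 | h3
    · exfalso
      have a4 := dist_pos_of_ne hg hst
      have a5 : cd dt L (Sum.inl (L s i)) (Sum.inr t) ≠ 0 := fun h0 => by
        have := hg.eq_of _ _ h0
        exact absurd this (by simp)
      have a6 := hg.symm (Sum.inl (L s i)) (Sum.inr t)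
      unfold MP_f1646b_al.Btw at h3
      omega
    · unfold MP_f1646b_al.Btw at h3 hb
      omega

end A4b

open A4b in
theorem cas {V S : Type*} {dt : V → V → ℕ} {L : S → ℤ → V} {κ : ℕ} [Nonempty V]
    (h : TL dt L κ) :
    CAS (cd dt L) (Set.range Sum.inr) (ang dt L) (42 * κ) 0 := by
  have hg := cd_geo h
  refine ⟨hg, ?_, ?_, ?_, ?_, ?_, ?_, ?_, ?_⟩
  · rintro _ ⟨c, rfl⟩ _ ⟨c', rfl⟩
    exact cd_rr h c c'
  · rintro _ ⟨c, rfl⟩ x _
    rw [ang_inr, sub_self]; rfl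
  · rintro _ ⟨c, rfl⟩ x y _ _
    rw [ang_inr, ang_inr]
    omega
  · rintro _ ⟨c, rfl⟩ x y z _ _ _
    rw [ang_inr, ang_inr, ang_inr]
    omega
  · rintro _ ⟨c, rfl⟩ x y hx hy hα
    exact k1 h hx hy hα
  · rintro _ ⟨c, rfl⟩ x y w hx hy hα hw
    exact k1' h hx hy hα hw
  · rintro _ ⟨s, rfl⟩ _ ⟨t, rfl⟩ x hst _ hxt hα
    have hset := in_eq h hst hxt hα
    rw [ang_inr]
    unfold mS
    rw [hset, sub_self]; rfl
  · rintro _ ⟨s, rfl⟩ w x hw hx hb
    have h1 := mS_close h hw hx (c := 14 * κ) (fun i hi j hj => by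
      refine in_diam h hx ?_ hj
      have a4 : cd dt L (Sum.inl (L s i)) w + 1 = cd dt L (Sum.inr s) w := hi
      show cd dt L (Sum.inl (L s i)) x + 1 = cd dt L (Sum.inr s) x
      have a1 := hg.tri (Sum.inl (L s i)) w x
      have a2 := hg.tri (Sum.inr s) (Sum.inl (L s i)) x
      have a3 := out h s i
      unfold MP_f1646b_al.Btw at hb
      omega)
    rw [ang_inr]
    omega

end Pool.Agent.Lib.MP_54ccb1_al
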