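import Pool.Agent.Lib.MP_54ccb1_al.A2
import Pool.Agent.Lib.MP_54ccb1_al.A4a
import Pool.Agent.Lib.MP_54ccb1_al.A4b

set_option autoImplicit false

namespace Pool.Agent.Lib.MP_54ccb1_al

open Pool.Agent.Lib.MP_f1646b_al (IsGeo Btw CAS ActCAS RotFam BigSet Psi mu GeoPath)

section A4
variable {V S : Type*} {dt : V → V → ℕ} {L : S → ℤ → V} {κ : ℕ}

namespace A4c

theorem bdd [Nonempty V] (h : TL dt L κ) {s : S} {x : V ⊕ S} (hx : x ≠ Sum.inr s) :
    BddBelow (In dt L s x) ∧ BddAbove (In dt L s x) := by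
  obtain ⟨i, hi⟩ := in_nonempty h hx
  constructor
  · refine ⟨i - 14 * κ, fun j hj => ?_⟩
    have := in_diam h hx hi hj
    omega
  · refine ⟨i + 14 * κ, fun j hj => ?_⟩
    have := in_diam h hx hi hj
    omega

theorem inf_mem [Nonempty V] (h : TL dt L κ) {s : S} {x : V ⊕ S} (hx : x ≠ Sum.inr s) :
    sInf (In dt L s x) ∈ In dt L s x :=
  Int.csInf_mem (in_nonempty h hx) (bdd h hx).1

theorem sup_mem [Nonempty V] (h : TL dt L κ) {s : S} {x : V ⊕ S} (hx : x ≠ Sum.inr s) :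
    sSup (In dt L s x) ∈ In dt L s x :=
  Int.csSup_mem (in_nonempty h hx) (bdd h hx).2

theorem mem_iff {G : Type*} [Group G] [MulAction G V] [MulAction G S]
    (hinv : ∀ (g : G) x y, dt (g • x) (g • y) = dt x y)
    (heqv : ∀ (g : G) s, ∃ c : ℤ, ∀ i, g • L s i = L (g • s) (i + c))
    {g : G} {s : S} {c : ℤ} (hc : ∀ i, g • L s i = L (g • s) (i + c)) (x : V ⊕ S) (i : ℤ) :
    i + c ∈ In dt L (g • s) (g • x) ↔ i ∈ In dt L s x := by
  unfold In
  simp only [Set.mem_ofPred_eq]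
  have e1 : (Sum.inl (L (g • s) (i + c)) : V ⊕ S) = g • (Sum.inl (L s i) : V ⊕ S) := by
    rw [← hc i]; rfl
  have e2 : (Sum.inr (g • s) : V ⊕ S) = g • (Sum.inr s : V ⊕ S) := rfl
  rw [e1, e2, cd_inv hinv heqv, cd_inv hinv heqv]

theorem smul_ne {G : Type*} [Group G] [MulAction G V] [MulAction G S] {g : G} {s : S} {x : V ⊕ S}
    (hx : x ≠ Sum.inr s) : g • x ≠ Sum.inr (g • s) := by
  intro h
  have e2 : (Sum.inr (g • s) : V ⊕ S) = g • (Sum.inr s : V ⊕ S) := rfl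
  rw [e2] at h
  exact hx (smul_left_cancel g h)

end A4c

theorem mS_smul [Nonempty V] (h : TL dt L κ) {G : Type*} [Group G] [MulAction G V] [MulAction G S]
    (hinv : ∀ (g : G) x y, dt (g • x) (g • y) = dt x y)
    (heqv : ∀ (g : G) s, ∃ c : ℤ, ∀ i, g • L s i = L (g • s) (i + c))
    {g : G} {s : S} {c : ℤ} (hc : ∀ i, g • L s i = L (g • s) (i + c))
    (x : V ⊕ S) (hx : x ≠ Sum.inr s) :
    mS dt L (g • s) (g • x) = mS dt L s x + 2 * c := by
  have hgx : g • x ≠ Sum.inr (g • s) := A4c.smul_ne hx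
  have m1 := A4c.inf_mem h hx
  have m2 := A4c.sup_mem h hx
  have m3 := A4c.inf_mem h hgx
  have m4 := A4c.sup_mem h hgx
  obtain ⟨b1, b2⟩ := A4c.bdd h hx
  obtain ⟨b3, b4⟩ := A4c.bdd h hgx
  have key := A4c.mem_iff hinv heqv hc x
  -- the infimum
  have i1 : sInf (In dt L (g • s) (g • x)) ≤ sInf (In dt L s x) + c :=
    csInf_le b3 ((key _).2 m1)
  have i2 : sInf (In dt L s x) ≤ sInf (In dt L (g • s) (g • x)) - c := by
    refine csInf_le b1 ((key _).1 ?_)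
    rw [sub_add_cancel]; exact m3
  have s1 : sSup (In dt L s x) + c ≤ sSup (In dt L (g • s) (g • x)) :=
    le_csSup b4 ((key _).2 m2)
  have s2 : sSup (In dt L (g • s) (g • x)) - c ≤ sSup (In dt L s x) := by
    refine le_csSup b2 ((key _).1 ?_)
    rw [sub_add_cancel]; exact m4
  unfold mS
  omega

theorem actCAS [Nonempty V] (h : TL dt L κ) {G : Type*} [Group G] [MulAction G V] [MulAction G S]
    (hinv : ∀ (g : G) x y, dt (g • x) (g • y) = dt x y)
    (heqv : ∀ (g : G) s, ∃ c : ℤ, ∀ i, g • L s i = L (g • s) (i + c)) :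
    ActCAS G (cd dt L) (Set.range Sum.inr) (ang dt L) (42 * κ) 0 := by
  refine ⟨cas h, cd_inv hinv heqv, ?_, ?_⟩
  · rintro g _ ⟨s, rfl⟩
    exact ⟨g • s, rfl⟩
  · rintro g _ ⟨s, rfl⟩ x y hx hy
    obtain ⟨c, hc⟩ := heqv g s
    have e2 : g • (Sum.inr s : V ⊕ S) = (Sum.inr (g • s) : V ⊕ S) := rfl
    rw [e2]
    unfold ang
    simp only
    rw [mS_smul h hinv heqv hc x hx, mS_smul h hinv heqv hc y hy]
    congr 1
    ring

theorem ang_rot [Nonempty V] (h : TL dt L κ) {G : Type*} [Group G] [MulAction G V] [MulAction G S]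
    (hinv : ∀ (g : G) x y, dt (g • x) (g • y) = dt x y)
    (heqv : ∀ (g : G) s, ∃ c : ℤ, ∀ i, g • L s i = L (g • s) (i + c))
    {g : G} {s : S} {c : ℤ} (hgs : g • s = s) (hc : ∀ i, g • L s i = L s (i + c))
    (x : V ⊕ S) (hx : x ≠ Sum.inr s) : ang dt L (Sum.inr s) x (g • x) = 2 * c.natAbs := by
  have hc' : ∀ i, g • L s i = L (g • s) (i + c) := by
    intro i; rw [hgs]; exact hc i
  have h1 := mS_smul h hinv heqv hc' x hx
  rw [hgs] at h1
  unfold ang
  simp only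
  rw [h1]
  omega

theorem ang_gate [Nonempty V] (h : TL dt L κ) {s : S} {u v : V} {p q : ℤ}
    (hp : IsGate dt L s u p) (hq : IsGate dt L s v q) :
    ang dt L (Sum.inr s) (Sum.inl u) (Sum.inl v) ≤ 2 * (p - q).natAbs + 28 * κ := by
  have hu : (Sum.inl u : V ⊕ S) ≠ Sum.inr s := by simp
  have hv : (Sum.inl v : V ⊕ S) ≠ Sum.inr s := by simp
  have hp' : Pr dt L s (Sum.inl u) p := hp
  have hq' : Pr dt L s (Sum.inl v) q := hq
  have a1 := in_pr h hu (A4c.inf_mem h hu) hp'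
  have a2 := in_pr h hu (A4c.sup_mem h hu) hp'
  have a3 := in_pr h hv (A4c.inf_mem h hv) hq'
  have a4 := in_pr h hv (A4c.sup_mem h hv) hq'
  unfold ang mS
  simp only
  omega

end A4

end Pool.Agent.Lib.MP_54ccb1_al
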