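import Pool.Agent.Lib.MP_54ccb1_al.Defs

set_option autoImplicit false

namespace Pool.Agent.Lib.MP_54ccb1_al

open Pool.Agent.Lib.MP_f1646b_al

theorem strong_wg {G X : Type*} [Group G] [MulAction G X] {d : X → X → ℕ} {S : Set X}
    {α : X → X → X → ℕ} {θ n : ℕ} {R : X → Subgroup G} (h : RotFam G d S α θ n R)
    (τ : X → ℕ) (hτ : ∀ (g : G), ∀ s ∈ S, τ (g • s) = τ s) (hn : ∀ s ∈ S, n ≤ τ s)
    (hbig : ∀ s ∈ S, ∀ ρ ∈ R s, ρ ≠ 1 → ∀ x, x ≠ s → 2 * τ s ≤ α s x (ρ • x)) :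
    ∀ g ∈ Subgroup.closure (⋃ s ∈ S, (R s : Set G)), ∀ x, g • x ≠ x →
      ∃ s ∈ S, s ≠ x ∧ s ≠ g • x ∧ 2 * τ s ≤ α s x (g • x) + 2 * θ := by
  obtain ⟨μ, -, -, -, hw⟩ := wg h
  intro g hg x
  have hC := h.act.cas
  -- well-founded induction on μ x (g • x)
  have main : ∀ m : ℕ ×ₗ ℕ, ∀ g ∈ Subgroup.closure (⋃ s ∈ S, (R s : Set G)), μ x (g • x) = m →
      g • x ≠ x → ∃ s ∈ S, s ≠ x ∧ s ≠ g • x ∧ 2 * τ s ≤ α s x (g • x) + 2 * θ := by
    intro m
    induction m using WellFoundedLT.induction with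
    | ind m ih =>
      intro g hg hm hgx
      obtain ⟨s0, hs0, h1, h2, h3, ρ, hρ, h4, h5⟩ := hw x (g • x) g hg rfl (Ne.symm hgx)
      have hρ1 : ρ ≠ 1 := by
        rintro rfl
        simp at h4
      have hρg : ρ * g ∈ Subgroup.closure (⋃ s ∈ S, (R s : Set G)) :=
        Subgroup.mul_mem _ (Subgroup.subset_closure (Set.mem_biUnion hs0 hρ)) hg
      have hy' : (ρ * g) • x = ρ • (g • x) := mul_smul _ _ _
      have hn' := hn s0 hs0
      have hlarge := h.large
      have hs0y : ρ • g • x ≠ s0 := P12a.rot_ne h hs0 hρ h2.symm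
      have hrot := hbig s0 hs0 ρ hρ hρ1 (g • x) h2.symm
      by_cases hx : ρ • g • x = x
      · -- last step
        refine ⟨s0, hs0, h1, h2, ?_⟩
        rw [hx] at hrot
        have := hC.a_symm s0 hs0 (g • x) x h2.symm h1.symm
        omega
      · obtain ⟨s', hs', a1, a2, a3⟩ := ih (μ x ((ρ * g) • x)) (by rw [hy', ← hm]; exact h5)
          (ρ * g) hρg rfl (by rw [hy']; exact hx)
        rw [hy'] at a2 a3
        by_cases hfold : α s0 x (ρ • g • x) ≤ 2 * θ
        · refine ⟨s0, hs0, h1, h2, ?_⟩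
          have b1 := hC.a_tri s0 hs0 (g • x) x (ρ • g • x) h2.symm h1.symm hs0y
          have b2 := hC.a_symm s0 hs0 (g • x) x h2.symm h1.symm
          omega
        · push Not at hfold
          by_cases hss : s' = s0
          · subst hss
            exact ⟨s', hs', h1, h2, by omega⟩
          · have hn'' := hn s' hs'
            have hbs0 : s0 ∈ BigSet S α θ x (ρ • g • x) := ⟨hs0, h1, hs0y.symm, hfold⟩
            have hbs' : s' ∈ BigSet S α θ x (ρ • g • x) := ⟨hs', a1, a2, by omega⟩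
            have hinv : ρ⁻¹ • ρ • g • x = g • x := inv_smul_smul ρ (g • x)
            obtain ⟨-, -, n3, n4⟩ := nonfold h x (ρ • g • x) s0 hbs0 ρ⁻¹ ((R s0).inv_mem hρ)
              (by rw [hinv]; omega)
            rw [hinv] at n3 n4
            have hb1 := P12a.big_btw hC hbs0
            rcases hC.k1' s' hs' x (ρ • g • x) s0 a1.symm a2.symm (by omega) hb1 with hb | hb
            · obtain ⟨c1, c2⟩ := n3 s' hbs' hss hb
              exact ⟨s', hs', a1, c1.2.2.1, by omega⟩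
            · obtain ⟨c1, c2, -⟩ := n4 s' hbs' hss hb
              refine ⟨ρ⁻¹ • s', c1.1, c1.2.1, c1.2.2.1, ?_⟩
              rw [hτ _ _ hs']
              omega
  exact main _ g hg rfl

end Pool.Agent.Lib.MP_54ccb1_al
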