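import Pool.Agent.Lib.MP_54ccb1_al.Defs

set_option autoImplicit false

namespace Pool.Agent.Lib.MP_54ccb1_al.C

open Pool.Agent.Lib.MP_f1646b_al (IsGeo Btw)

open FreeGroup

/-- longest common initial part of two lists -/
theorem split {β : Type*} : ∀ l m : List β, ∃ c a b : List β, l = c ++ a ∧ m = c ++ b ∧
    ∀ p ∈ a.head?, ∀ q ∈ b.head?, p ≠ q
  | [], m => ⟨[], [], m, rfl, rfl, by simp⟩
  | x :: l, [] => ⟨[], x :: l, [], rfl, rfl, by simp⟩
  | x :: l, y :: m => by
    classical
    by_cases h : x = y
    · obtain ⟨c, a, b, h1, h2, h3⟩ := split l m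
      exact ⟨x :: c, a, b, by rw [h1]; rfl, by rw [h2, h]; rfl, h3⟩
    · exact ⟨[], x :: l, y :: m, rfl, rfl, by simpa using h⟩

section

variable {α : Type*}

theorem red_left {a b : List (α × Bool)} (h : IsReduced (a ++ b)) : IsReduced a :=
  (List.isChain_append.1 h).1

theorem red_right {a b : List (α × Bool)} (h : IsReduced (a ++ b)) : IsReduced b :=
  (List.isChain_append.1 h).2.1

variable [DecidableEq α]

theorem red_inv {a : List (α × Bool)} (ha : IsReduced a) : IsReduced (invRev a) := by
  apply IsReduced.of_reduce_eq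
  rw [reduce_invRev, ha.reduce_eq]

theorem red_append {a b : List (α × Bool)} (ha : IsReduced a) (hb : IsReduced b)
    (h : ∀ p ∈ a.head?, ∀ q ∈ b.head?, p ≠ q) : IsReduced (invRev a ++ b) := by
  unfold FreeGroup.IsReduced
  rw [List.isChain_append]
  refine ⟨red_inv ha, hb, ?_⟩
  intro x hx y hy hxy
  cases a with
  | nil => simp [invRev] at hx
  | cons p a =>
    rw [invRev_cons] at hx
    have hx' : x = (p.1, !p.2) := by
      simpa [invRev] using hx.symm
    have hne := h p (by simp) y hy
    subst hx'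
    simp only at hxy ⊢
    by_contra hcon
    apply hne
    ext
    · exact hxy
    · revert hcon
      cases p.2 <;> cases y.2 <;> simp

theorem norm_mk {a : List (α × Bool)} (h : IsReduced a) : (mk a).norm = a.length := by
  unfold FreeGroup.norm
  rw [toWord_mk, h.reduce_eq]

/-- the distance in terms of a decomposition of the words -/
theorem fd_eq {x y : FreeGroup α} {c a b : List (α × Bool)} (hx : x.toWord = c ++ a)
    (hy : y.toWord = c ++ b) (h : ∀ p ∈ a.head?, ∀ q ∈ b.head?, p ≠ q) :
    fd x y = a.length + b.length := by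
  have ha : IsReduced a := red_right (hx ▸ isReduced_toWord)
  have hb : IsReduced b := red_right (hy ▸ isReduced_toWord)
  have e : x⁻¹ * y = mk (invRev a ++ b) := by
    rw [← mk_toWord (x := x), ← mk_toWord (x := y), hx, hy, ← mul_mk, ← mul_mk, ← mul_mk, ← inv_mk]
    group
  unfold fd
  rw [e, norm_mk (red_append ha hb h)]
  simp

theorem fd_one (y : FreeGroup α) : fd 1 y = y.toWord.length := by
  unfold fd FreeGroup.norm
  simp

theorem fd_prefix {w y : FreeGroup α} {b : List (α × Bool)} (h : y.toWord = w.toWord ++ b) :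
    fd w y = b.length := by
  have := fd_eq (x := w) (y := y) (c := w.toWord) (a := []) (b := b) (by simp) h (by simp)
  simpa using this

theorem btw_one_iff {w y : FreeGroup α} : Btw fd 1 w y ↔ ∃ b, y.toWord = w.toWord ++ b := by
  constructor
  · intro h
    obtain ⟨c, a, b, h1, h2, h3⟩ := split w.toWord y.toWord
    have e := fd_eq h1 h2 h3
    unfold MP_f1646b_al.Btw at h
    rw [fd_one, fd_one, e, h1, h2] at h
    simp only [List.length_append] at h
    have : a = [] := List.eq_nil_of_length_eq_zero (by omega)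
    subst this
    exact ⟨b, by rw [h2, h1]; simp⟩
  · rintro ⟨b, hb⟩
    unfold MP_f1646b_al.Btw
    rw [fd_one, fd_one, fd_prefix hb, hb]
    simp

theorem inv' (g x y : FreeGroup α) : fd (g * x) (g * y) = fd x y := by
  unfold fd
  congr 1
  group

theorem btw_mul (g : FreeGroup α) {x w y : FreeGroup α} :
    Btw fd (g * x) (g * w) (g * y) ↔ Btw fd x w y := by
  unfold MP_f1646b_al.Btw
  rw [inv', inv', inv']

theorem thin_one (y z w : FreeGroup α) (hw : Btw fd 1 w y) : Btw fd 1 w z ∨ Btw fd z w y := by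
  obtain ⟨t, ht⟩ := btw_one_iff.1 hw
  obtain ⟨c, a, b, h1, h2, h3⟩ := split w.toWord z.toWord
  cases a with
  | nil => left; exact btw_one_iff.2 ⟨b, by rw [h2, h1]; simp⟩
  | cons p a =>
    right
    have e1 := fd_eq h1 h2 h3
    have e2 := fd_prefix ht
    have e3 : fd y z = ((p :: a) ++ t).length + b.length := by
      refine fd_eq (c := c) ?_ h2 ?_
      · rw [ht, h1]; simp
      · simpa using h3
    have s1 : fd z w = fd w z := by
      unfold fd
      rw [← norm_inv_eq]
      congr 1
      group
    have s2 : fd z y = fd y z := by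
      unfold fd
      rw [← norm_inv_eq]
      congr 1
      group
    unfold MP_f1646b_al.Btw
    rw [s1, s2, e1, e2, e3]
    simp only [List.length_append, List.length_cons]
    omega

theorem med_one (y z : FreeGroup α) : ∃ m, Btw fd 1 m y ∧ Btw fd y m z ∧ Btw fd 1 m z := by
  obtain ⟨c, a, b, h1, h2, h3⟩ := split y.toWord z.toWord
  have hc : IsReduced c := red_left (h1 ▸ isReduced_toWord)
  have hm : (mk c).toWord = c := by rw [toWord_mk, hc.reduce_eq]
  refine ⟨mk c, btw_one_iff.2 ⟨a, by rw [h1, hm]⟩, ?_, btw_one_iff.2 ⟨b, by rw [h2, hm]⟩⟩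
  have e1 := fd_eq h1 h2 h3
  have e2 : fd (mk c) y = a.length := fd_prefix (by rw [h1, hm])
  have e3 : fd (mk c) z = b.length := fd_prefix (by rw [h2, hm])
  have s1 : fd y (mk c) = fd (mk c) y := by
    unfold fd
    rw [← norm_inv_eq]
    congr 1
    group
  unfold MP_f1646b_al.Btw
  rw [s1, e1, e2, e3]

end

end Pool.Agent.Lib.MP_54ccb1_al.C

namespace Pool.Agent.Lib.MP_54ccb1_al

open Pool.Agent.Lib.MP_f1646b_al (IsGeo Btw CAS ActCAS RotFam BigSet Psi mu GeoPath)

section C
variable {α : Type*} [DecidableEq α]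

theorem fd_geo : IsGeo (fd (α := α)) where
  self x := by unfold fd; simp
  eq_of x y h := by
    unfold fd at h
    rw [FreeGroup.norm_eq_zero] at h
    exact inv_mul_eq_one.1 h
  symm x y := by
    unfold fd
    rw [← FreeGroup.norm_inv_eq]
    congr 1
    group
  tri x y z := by
    unfold fd
    have : x⁻¹ * z = (x⁻¹ * y) * (y⁻¹ * z) := by group
    rw [this]
    exact FreeGroup.norm_mul_le _ _
  geo x y i hi := by
    set u := x⁻¹ * y with hu
    have hr : FreeGroup.IsReduced (u.toWord.take i ++ u.toWord.drop i) := by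
      rw [List.take_append_drop]
      exact FreeGroup.isReduced_toWord
    have hl : u.toWord.length = fd x y := rfl
    refine ⟨x * FreeGroup.mk (u.toWord.take i), ?_, ?_⟩
    · unfold fd
      rw [inv_mul_cancel_left, C.norm_mk (C.red_left hr)]
      simp [hl, hi]
    · have e : (x * FreeGroup.mk (u.toWord.take i))⁻¹ * y = FreeGroup.mk (u.toWord.drop i) := by
        have h1 : FreeGroup.mk (u.toWord.take i) * FreeGroup.mk (u.toWord.drop i) = u := by
          rw [FreeGroup.mul_mk, List.take_append_drop, FreeGroup.mk_toWord]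
        rw [mul_inv_rev, mul_assoc, ← hu, inv_mul_eq_iff_eq_mul, h1]
      unfold fd
      rw [e, C.norm_mk (C.red_right hr)]
      simp [hl]
      rfl

theorem fd_inv (g x y : FreeGroup α) : fd (g * x) (g * y) = fd x y := C.inv' g x y

theorem fd_thin (x y z w : FreeGroup α) (hw : Btw fd x w y) : Btw fd x w z ∨ Btw fd z w y := by
  have h := C.thin_one (x⁻¹ * y) (x⁻¹ * z) (x⁻¹ * w) (by
    rw [← C.btw_mul x]
    simpa using hw)
  rcases h with h | h
  · left
    rw [← C.btw_mul x] at h
    simpa using h
  · right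
    rw [← C.btw_mul x] at h
    simpa using h

theorem fd_med (x y z : FreeGroup α) : ∃ m, Btw fd x m y ∧ Btw fd y m z ∧ Btw fd x m z := by
  obtain ⟨m, h1, h2, h3⟩ := C.med_one (x⁻¹ * y) (x⁻¹ * z)
  rw [← C.btw_mul x] at h1 h2 h3
  exact ⟨x * m, by simpa using h1, by simpa using h2, by simpa using h3⟩

end C

end Pool.Agent.Lib.MP_54ccb1_al
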