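import Pool.Agent.Lib.MP_54ccb1_al.Defs

set_option autoImplicit false

namespace Pool.Agent.Lib.MP_54ccb1_al

open Pool.Agent.Lib.MP_f1646b_al (IsGeo Btw CAS ActCAS RotFam BigSet Psi mu GeoPath)

namespace D

variable {α : Type*}

theorem rd_zero (f : ℤ → α × Bool) (x : ℤ) : rd f x 0 = [] := rfl

theorem rd_succ (f : ℤ → α × Bool) (x : ℤ) (k : ℕ) : rd f x (k + 1) = rd f x k ++ [f (x + k)] := by
  simp [rd, List.range_succ]

theorem rd_succ' (f : ℤ → α × Bool) (x : ℤ) (k : ℕ) : rd f x (k + 1) = f x :: rd f (x + 1) k := by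
  simp only [rd, List.range_succ_eq_map, List.map_cons, List.map_map]
  congr 1
  · simp
  · apply List.map_congr_left
    intro j _
    simp only [Function.comp_apply]
    congr 1
    push_cast
    ring

theorem rd_length (f : ℤ → α × Bool) (x : ℤ) (k : ℕ) : (rd f x k).length = k := by
  simp [rd]

theorem rd_getElem (f : ℤ → α × Bool) (x : ℤ) (k : ℕ) (j : ℕ) (hj : j < (rd f x k).length) :
    (rd f x k)[j] = f (x + j) := by
  simp [rd]

theorem mk_append (l₁ l₂ : List (α × Bool)) :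
    FreeGroup.mk (l₁ ++ l₂) = FreeGroup.mk l₁ * FreeGroup.mk l₂ := (FreeGroup.mul_mk).symm

end D

section D
variable {α : Type*}

theorem ell_zero (f : ℤ → α × Bool) : ell f 0 = 1 := by
  simp [ell, rd, ← FreeGroup.one_eq_mk]

theorem ell_succ (f : ℤ → α × Bool) (t : ℤ) :
    ell f (t + 1) = ell f t * FreeGroup.mk [f t] := by
  rcases lt_or_ge t 0 with ht | ht
  · obtain ⟨m, hm⟩ : ∃ m : ℕ, t = -(m + 1 : ℤ) := ⟨(-t - 1).toNat, by omega⟩
    subst hm
    have e1 : (-(m + 1 : ℤ) + 1).toNat = 0 := by omega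
    have e2 : (-(-(m + 1 : ℤ) + 1)).toNat = m := by omega
    have e3 : (-(m + 1 : ℤ)).toNat = 0 := by omega
    have e4 : (-(-(m + 1 : ℤ))).toNat = m + 1 := by omega
    unfold ell
    rw [e1, e2, e3, e4, D.rd_succ', D.rd_zero, ← List.singleton_append, D.mk_append,
      ← FreeGroup.one_eq_mk, one_mul, mul_inv_rev, one_mul, mul_assoc, inv_mul_cancel, mul_one]
  · have e1 : (t + 1).toNat = t.toNat + 1 := by omega
    have e2 : (-(t + 1)).toNat = 0 := by omega
    have e3 : (-t).toNat = 0 := by omega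
    have e4 : (0 : ℤ) + (t.toNat : ℤ) = t := by omega
    unfold ell
    rw [e1, e2, e3, D.rd_succ, D.mk_append, e4, D.rd_zero, D.rd_zero]
    simp [← FreeGroup.one_eq_mk, -FreeGroup.mul_mk]

theorem ell_add (f : ℤ → α × Bool) (t : ℤ) (k : ℕ) :
    ell f (t + k) = ell f t * FreeGroup.mk (rd f t k) := by
  induction k with
  | zero => simp [D.rd_zero, ← FreeGroup.one_eq_mk]
  | succ k ih =>
    rw [D.rd_succ, D.mk_append, ← mul_assoc, ← ih]
    rw [← ell_succ]
    congr 1
    push_cast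
    ring

theorem ell_period (f : ℤ → α × Bool) (n : ℤ) (hf : ∀ t, f (t + n) = f t) (t : ℤ) :
    ell f (t + n) = ell f n * ell f t := by
  induction t using Int.induction_on with
  | zero => simp [ell_zero]
  | succ i ih =>
    have e1 : ((i : ℤ) + 1 + n) = ((i : ℤ) + n) + 1 := by ring
    rw [e1, ell_succ, ih, hf, ell_succ, mul_assoc]
  | pred i ih =>
    have e1 := ell_succ f (-(i : ℤ) - 1 + n)
    have e2 := ell_succ f (-(i : ℤ) - 1)
    have e3 : -(i : ℤ) - 1 + n + 1 = -(i : ℤ) + n := by ring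
    have e4 : -(i : ℤ) - 1 + 1 = -(i : ℤ) := by ring
    rw [e3, ih, hf] at e1
    rw [e4] at e2
    rw [e2, ← mul_assoc] at e1
    exact (mul_right_cancel e1).symm

theorem rd_reduced (f : ℤ → α × Bool) (hf : ∀ t, f (t + 1) ≠ flip (f t)) (x : ℤ) (k : ℕ) :
    FreeGroup.IsReduced (rd f x k) := by
  unfold FreeGroup.IsReduced
  rw [List.isChain_iff_getElem]
  intro i hi
  rw [D.rd_getElem, D.rd_getElem]
  intro h1
  have h2 := hf (x + i)
  have e : x + ((i + 1 : ℕ) : ℤ) = x + i + 1 := by push_cast; ring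
  rw [e] at h1 ⊢
  by_contra h3
  apply h2
  unfold flip
  refine Prod.ext h1.symm ?_
  cases h4 : (f (x + i)).2 <;> cases h5 : (f (x + i + 1)).2 <;> simp_all

theorem ell_dist [DecidableEq α] (f : ℤ → α × Bool) (hf : ∀ t, f (t + 1) ≠ flip (f t)) (x y : ℤ) :
    fd (ell f x) (ell f y) = (x - y).natAbs := by
  have key : ∀ (x : ℤ) (k : ℕ), fd (ell f x) (ell f (x + k)) = k := by
    intro x k
    unfold fd
    rw [ell_add, inv_mul_cancel_left, FreeGroup.norm, FreeGroup.toWord_mk,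
      (rd_reduced f hf x k).reduce_eq, D.rd_length]
  rcases le_total x y with h | h
  · obtain ⟨k, hk⟩ : ∃ k : ℕ, y = x + k := ⟨(y - x).toNat, by omega⟩
    rw [hk, key]
    omega
  · obtain ⟨k, hk⟩ : ∃ k : ℕ, x = y + k := ⟨(x - y).toNat, by omega⟩
    have : fd (ell f x) (ell f y) = fd (ell f y) (ell f x) := by
      unfold fd
      rw [← FreeGroup.norm_inv_eq, mul_inv_rev, inv_inv]
    rw [this, hk, key]
    omega

end D

end Pool.Agent.Lib.MP_54ccb1_al
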