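import Pool.Agent.Lib.MP_f1646b_al.P12b
import Pool.Agent.Lib.MP_f1646b_al.P01
import Pool.Agent.Lib.MP_f1646b_al.P03

set_option autoImplicit false

namespace Pool.Agent.Lib.MP_54ccb1_al

open Pool.Agent.Lib.MP_f1646b_al (IsGeo Btw CAS ActCAS RotFam BigSet Psi mu GeoPath)

/-! ### trees with lines -/

/-- an (integer) tree `(V, dt)` with a family of lines `L s` (`s : S`), which overlap in segments of
length at most `κ` -/
structure TL {V S : Type*} (dt : V → V → ℕ) (L : S → ℤ → V) (κ : ℕ) : Prop where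
  geo : IsGeo dt
  thin : ∀ x y z w, Btw dt x w y → Btw dt x w z ∨ Btw dt z w y
  med : ∀ x y z, ∃ m, Btw dt x m y ∧ Btw dt y m z ∧ Btw dt x m z
  line : ∀ s i j, dt (L s i) (L s j) = (i - j).natAbs
  ovl : ∀ s t, s ≠ t → ∀ i i' j j', L s i = L t j → L s i' = L t j' → (i - i').natAbs ≤ κ
  one_le : 1 ≤ κ

/-- the gate (projection) of `v` on the line `s` is at position `p` -/
def IsGate {V S : Type*} (dt : V → V → ℕ) (L : S → ℤ → V) (s : S) (v : V) (p : ℤ) : Prop :=
  ∀ j : ℤ, dt v (L s j) = dt v (L s p) + (p - j).natAbs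

/-- adjacency in the tree with apices -/
def CAdj {V S : Type*} (dt : V → V → ℕ) (L : S → ℤ → V) (x y : V ⊕ S) : Prop :=
  (∃ u v : V, x = Sum.inl u ∧ y = Sum.inl v ∧ dt u v = 1) ∨
    (∃ (s : S) (i : ℤ), x = Sum.inl (L s i) ∧ y = Sum.inr s)

/-- the tree with an apex for every line -/
def cG {V S : Type*} (dt : V → V → ℕ) (L : S → ℤ → V) : SimpleGraph (V ⊕ S) :=
  SimpleGraph.fromRel (CAdj dt L)

/-- its metric -/
noncomputable def cd {V S : Type*} (dt : V → V → ℕ) (L : S → ℤ → V) : V ⊕ S → V ⊕ S → ℕ :=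
  (cG dt L).dist

/-- positions of the projections of the points of `x` to the line `s` -/
def Pr {V S : Type*} (dt : V → V → ℕ) (L : S → ℤ → V) (s : S) : V ⊕ S → ℤ → Prop
  | Sum.inl v, p => IsGate dt L s v p
  | Sum.inr t, p => ∃ j : ℤ, IsGate dt L s (L t j) p

/-- positions of the points of the line `s` through which geodesics from the apex `s` to `x` leave -/
def In {V S : Type*} (dt : V → V → ℕ) (L : S → ℤ → V) (s : S) (x : V ⊕ S) : Set ℤ :=
  {i | cd dt L (Sum.inl (L s i)) x + 1 = cd dt L (Sum.inr s) x}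

noncomputable def mS {V S : Type*} (dt : V → V → ℕ) (L : S → ℤ → V) (s : S) (x : V ⊕ S) : ℤ :=
  sInf (In dt L s x) + sSup (In dt L s x)

/-- the angle function -/
noncomputable def ang {V S : Type*} (dt : V → V → ℕ) (L : S → ℤ → V) :
    V ⊕ S → V ⊕ S → V ⊕ S → ℕ
  | Sum.inl _, _, _ => 0
  | Sum.inr s, x, y => (mS dt L s x - mS dt L s y).natAbs

/-! ### free groups -/

/-- the metric of the Cayley tree -/
def fd {α : Type*} [DecidableEq α] (g h : FreeGroup α) : ℕ := (g⁻¹ * h).norm

/-- the inverse letter -/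
def flip {α : Type*} (a : α × Bool) : α × Bool := (a.1, !a.2)

/-- the word of length `k` which `f` spells from position `x` on -/
def rd {α : Type*} (f : ℤ → α × Bool) (x : ℤ) (k : ℕ) : List (α × Bool) :=
  (List.range k).map fun j : ℕ => f (x + j)

/-- the path in the free group which starts at `1` and spells `f` -/
def ell {α : Type*} (f : ℤ → α × Bool) (t : ℤ) : FreeGroup α :=
  FreeGroup.mk (rd f 0 t.toNat) * (FreeGroup.mk (rd f t (-t).toNat))⁻¹

/-- a system of cyclic words `per i` of length `n i`, given as periodic functions, with overlaps at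
most `κ`, which is small in comparison with the lengths -/
structure RelSys (α ι : Type*) (n : ι → ℕ) (per : ι → ℤ → α × Bool) (κ : ℕ) : Prop where
  periodic : ∀ i t, per i (t + n i) = per i t
  red : ∀ i t, per i (t + 1) ≠ flip (per i t)
  same : ∀ i j (x y : ℤ), (∀ k : ℕ, k ≤ κ → per i (x + k) = per j (y + k)) →
    i = j ∧ (n i : ℤ) ∣ x - y
  opp : ∀ i j (x y : ℤ), ¬ ∀ k : ℕ, k ≤ κ → per i (x + k) = flip (per j (y - k))
  large : ∀ i, 336 * κ < n i
  one_le : 1 ≤ κ

/-- the relators -/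
def relr {α ι : Type*} (n : ι → ℕ) (per : ι → ℤ → α × Bool) (i : ι) : FreeGroup α :=
  ell (per i) (n i)

/-- the lines of the relators: `c = g⟨r i⟩` stands for the line through `g` spelling the powers of `r i` -/
abbrev LineIdx {α ι : Type*} (n : ι → ℕ) (per : ι → ℤ → α × Bool) :=
  Σ i : ι, FreeGroup α ⧸ Subgroup.zpowers (relr n per i)

noncomputable def LF {α ι : Type*} (n : ι → ℕ) (per : ι → ℤ → α × Bool)
    (s : LineIdx n per) (t : ℤ) : FreeGroup α :=
  s.2.out * ell (per s.1) t

/-- the rotation subgroups -/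
noncomputable def RF {α ι : Type*} (n : ι → ℕ) (per : ι → ℤ → α × Bool) :
    FreeGroup α ⊕ LineIdx n per → Subgroup (FreeGroup α)
  | Sum.inl _ => ⊥
  | Sum.inr s => (Subgroup.zpowers (relr n per s.1)).map (MulAut.conj s.2.out).toMonoidHom

/-- the normal closure of the relators -/
def NR {α ι : Type*} (n : ι → ℕ) (per : ι → ℤ → α × Bool) : Subgroup (FreeGroup α) :=
  Subgroup.normalClosure (Set.range (relr n per))

end Pool.Agent.Lib.MP_54ccb1_al
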