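import Pool.Agent.Lib.MP_54ccb1_al.A1
import Pool.Agent.Lib.MP_54ccb1_al.C
import Pool.Agent.Lib.MP_54ccb1_al.D

set_option autoImplicit false

namespace Pool.Agent.Lib.MP_54ccb1_al

open Pool.Agent.Lib.MP_f1646b_al (IsGeo Btw CAS ActCAS RotFam BigSet Psi mu GeoPath)

namespace E1

variable {α ι : Type*} [DecidableEq α] {n : ι → ℕ} {per : ι → ℤ → α × Bool} {κ : ℕ}

theorem mk_single_inj {a b : α × Bool} (h : FreeGroup.mk [a] = FreeGroup.mk [b]) : a = b := by
  have h1 := congrArg FreeGroup.toWord h
  rw [FreeGroup.toWord_mk, FreeGroup.toWord_mk, FreeGroup.reduce_singleton,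
    FreeGroup.reduce_singleton] at h1
  exact (List.cons.inj h1).1

omit [DecidableEq α] in
theorem mk_single_inv (a : α × Bool) : (FreeGroup.mk [a])⁻¹ = FreeGroup.mk [flip a] := by
  rw [FreeGroup.inv_mk]
  rfl

omit [DecidableEq α] in
theorem ell_mul (f : ℤ → α × Bool) (p : ℤ) (hf : ∀ t, f (t + p) = f t) (m t : ℤ) :
    ell f (t + m * p) = ell f p ^ m * ell f t := by
  induction m using Int.induction_on generalizing t with
  | zero => simp
  | succ m ih =>
    have h1 : t + ((m : ℤ) + 1) * p = (t + m * p) + p := by ring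
    rw [h1, ell_period f p hf, ih, zpow_add_one, ← mul_assoc,
      (Commute.self_zpow (ell f p) m).eq]
  | pred m ih =>
    have h1 : t + (-(m : ℤ)) * p = (t + (-(m : ℤ) - 1) * p) + p := by ring
    have h2 := ih t
    rw [h1, ell_period f p hf] at h2
    have h3 : ell f (t + (-(m : ℤ) - 1) * p) =
        (ell f p)⁻¹ * (ell f p ^ (-(m : ℤ)) * ell f t) := by
      rw [← h2]; group
    rw [h3, zpow_sub_one, ← mul_assoc]
    congr 1
    rw [← zpow_neg_one, ← zpow_add, ← zpow_add, add_comm]

theorem line (h : RelSys α ι n per κ) (s : LineIdx n per) (i j : ℤ) :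
    fd (LF n per s i) (LF n per s j) = (i - j).natAbs := by
  unfold LF
  rw [fd_inv, ell_dist _ (h.red s.1)]

omit [DecidableEq α] in
theorem LF_succ (s : LineIdx n per) (i : ℤ) :
    LF n per s (i + 1) = LF n per s i * FreeGroup.mk [per s.1 i] := by
  unfold LF
  rw [ell_succ, mul_assoc]

omit [DecidableEq α] in
/-- same index if the lines coincide at a point and the words agree. -/
theorem idx_eq (h : RelSys α ι n per κ) (s t : LineIdx n per) (i j : ℤ)
    (h1 : LF n per s i = LF n per t j) (h2 : s.1 = t.1) (h3 : (n s.1 : ℤ) ∣ i - j) : s = t := by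
  obtain ⟨ι0, c⟩ := s
  obtain ⟨ι1, c'⟩ := t
  obtain rfl : ι0 = ι1 := h2
  obtain ⟨m, hm⟩ := h3
  have hi : i = j + m * (n ι0 : ℤ) := by
    have : (n ι0 : ℤ) * m = i - j := hm.symm
    linarith
  unfold LF at h1
  simp only at h1
  rw [hi, ell_mul (per ι0) (n ι0) (h.periodic ι0)] at h1
  rw [← mul_assoc] at h1
  have h4 : c.out * (relr n per ι0) ^ m = c'.out := mul_right_cancel h1
  have h5 : c = c' := by
    rw [← QuotientGroup.out_eq' c, ← QuotientGroup.out_eq' c', QuotientGroup.eq, ← h4]
    rw [← mul_assoc, inv_mul_cancel, one_mul]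
    exact Subgroup.zpow_mem_zpowers _ _
  rw [h5]

/-- the main case -/
theorem ovl_aux (h : RelSys α ι n per κ) (s t : LineIdx n per) (i j j' : ℤ) (d : ℕ) (hd : κ < d)
    (h1 : LF n per s i = LF n per t j) (h2 : LF n per s (i + d) = LF n per t j') : s = t := by
  have hdist : (j - j').natAbs = d := by
    rw [← line h t j j', ← h1, ← h2, line h]
    omega
  have hx : ∀ k : ℕ, k ≤ d →
      Btw fd (LF n per s i) (LF n per s (i + k)) (LF n per s (i + d)) ∧
      fd (LF n per s i) (LF n per s (i + k)) = k := by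
    intro k hk
    unfold Pool.Agent.Lib.MP_f1646b_al.Btw
    rw [line h, line h, line h]
    constructor <;> omega
  rcases (by omega : j' = j + d ∨ j' = j - d) with hj | hj
  · have hy : ∀ k : ℕ, k ≤ d → LF n per s (i + k) = LF n per t (j + k) := by
      intro k hk
      refine btw_unique fd_geo fd_thin (hx k hk).1 ?_ ?_ (y := LF n per s (i + d))
      · rw [h1, h2, hj]
        unfold Pool.Agent.Lib.MP_f1646b_al.Btw
        rw [line h, line h, line h]
        omega
      · rw [(hx k hk).2, h1, line h]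
        omega
    have hl : ∀ k : ℕ, k ≤ κ → per s.1 (i + k) = per t.1 (j + k) := by
      intro k hk
      have h3 := hy (k + 1) (by omega)
      have h4 := hy k (by omega)
      have h5 : i + ((k + 1 : ℕ) : ℤ) = (i + k) + 1 := by push_cast; ring
      have h6 : j + ((k + 1 : ℕ) : ℤ) = (j + k) + 1 := by push_cast; ring
      rw [h5, h6, LF_succ, LF_succ, h4] at h3
      exact mk_single_inj (mul_left_cancel h3)
    obtain ⟨h3, h4⟩ := h.same _ _ _ _ hl
    exact idx_eq h s t i j h1 h3 h4
  · have hy : ∀ k : ℕ, k ≤ d → LF n per s (i + k) = LF n per t (j - k) := by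
      intro k hk
      refine btw_unique fd_geo fd_thin (hx k hk).1 ?_ ?_ (y := LF n per s (i + d))
      · rw [h1, h2, hj]
        unfold Pool.Agent.Lib.MP_f1646b_al.Btw
        rw [line h, line h, line h]
        omega
      · rw [(hx k hk).2, h1, line h]
        omega
    exfalso
    refine h.opp s.1 t.1 i (j - 1) ?_
    intro k hk
    have h3 := hy (k + 1) (by omega)
    have h4 := hy k (by omega)
    have h5 : i + ((k + 1 : ℕ) : ℤ) = (i + k) + 1 := by push_cast; ring
    have h6 : j - (k : ℤ) = (j - 1 - k) + 1 := by ring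
    have h7 : j - ((k + 1 : ℕ) : ℤ) = j - 1 - k := by push_cast; ring
    rw [h5, LF_succ, h7] at h3
    rw [h6, LF_succ] at h4
    rw [h4, mul_assoc] at h3
    have h8 : FreeGroup.mk [per t.1 (j - 1 - k)] * FreeGroup.mk [per s.1 (i + k)] = 1 := by
      have := h3
      exact mul_eq_left.1 this
    have h9 : FreeGroup.mk [per s.1 (i + k)] = (FreeGroup.mk [per t.1 (j - 1 - k)])⁻¹ :=
      (inv_eq_of_mul_eq_one_right h8).symm
    rw [mk_single_inv] at h9
    exact mk_single_inj h9

end E1

section E
variable {α ι : Type*} [DecidableEq α] {n : ι → ℕ} {per : ι → ℤ → α × Bool} {κ : ℕ}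

theorem tl (h : RelSys α ι n per κ) : TL fd (LF n per) κ where
  geo := fd_geo
  thin := fd_thin
  med := fd_med
  line := E1.line h
  ovl := by
    intro s t hst i i' j j' h1 h2
    by_contra hc
    rcases le_total i i' with hii | hii
    · refine hst (E1.ovl_aux h s t i j j' (i - i').natAbs (by omega) h1 ?_)
      rw [← h2]
      congr 1
      omega
    · refine hst (E1.ovl_aux h s t i' j' j (i - i').natAbs (by omega) h2 ?_)
      rw [← h1]
      congr 1
      omega
  one_le := h.one_le

end E

end Pool.Agent.Lib.MP_54ccb1_al
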