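import Pool.Agent.Lib.MP_54ccb1_al.D

set_option autoImplicit false

namespace Pool.Agent.Lib.MP_54ccb1_al

open Pool.Agent.Lib.MP_f1646b_al (IsGeo Btw CAS ActCAS RotFam BigSet Psi mu GeoPath)

namespace E2

variable {α ι : Type*} {n : ι → ℕ} {per : ι → ℤ → α × Bool}

theorem ell_zpow (f : ℤ → α × Bool) (n : ℤ) (hf : ∀ t, f (t + n) = f t) (m t : ℤ) :
    ell f (t + m * n) = ell f n ^ m * ell f t := by
  induction m using Int.induction_on with
  | zero => simp
  | succ i ih =>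
    have e : t + ((i : ℤ) + 1) * n = (t + (i : ℤ) * n) + n := by ring
    rw [e, ell_period f n hf, ih, ← mul_assoc, ← zpow_one_add, add_comm (1 : ℤ)]
  | pred i ih =>
    have e := ell_period f n hf (t + (-(i : ℤ) - 1) * n)
    have e1 : t + (-(i : ℤ) - 1) * n + n = t + -(i : ℤ) * n := by ring
    rw [e1, ih] at e
    have e2 : ell f n ^ (-(i : ℤ)) = ell f n * ell f n ^ (-(i : ℤ) - 1) := by
      rw [← zpow_one_add]; congr 1; ring
    rw [e2, mul_assoc] at e
    exact (mul_left_cancel e).symm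

theorem smul_out (g : FreeGroup α) (i : ι) (c : FreeGroup α ⧸ Subgroup.zpowers (relr n per i)) :
    ∃ m : ℤ, (g • c).out = g * c.out * relr n per i ^ m := by
  have h1 : g • c = ((g * c.out : FreeGroup α) : FreeGroup α ⧸ Subgroup.zpowers (relr n per i)) := by
    conv_lhs => rw [← QuotientGroup.out_eq' c]
    rfl
  obtain ⟨h, hh⟩ := QuotientGroup.mk_out_eq_mul (Subgroup.zpowers (relr n per i)) (g * c.out)
  obtain ⟨m, hm⟩ := Subgroup.mem_zpowers_iff.1 h.2
  exact ⟨m, by rw [h1, hh, hm]⟩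

theorem mem_RF (s : LineIdx n per) (ρ : FreeGroup α) :
    ρ ∈ RF n per (Sum.inr s) ↔ ∃ m : ℤ, ρ = s.2.out * relr n per s.1 ^ m * s.2.out⁻¹ := by
  constructor
  · intro h
    obtain ⟨x, hx, rfl⟩ := Subgroup.mem_map.1 h
    obtain ⟨m, rfl⟩ := Subgroup.mem_zpowers_iff.1 hx
    exact ⟨m, rfl⟩
  · rintro ⟨m, rfl⟩
    exact Subgroup.mem_map.2 ⟨_, Subgroup.mem_zpowers_iff.2 ⟨m, rfl⟩, rfl⟩

end E2

set_option linter.unusedSectionVars false

section E
variable {α ι : Type*} [DecidableEq α] {n : ι → ℕ} {per : ι → ℤ → α × Bool} {κ : ℕ}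

theorem LF_eqv (h : RelSys α ι n per κ) (g : FreeGroup α) (s : LineIdx n per) :
    ∃ c : ℤ, ∀ i, g • LF n per s i = LF n per (g • s) (i + c) := by
  obtain ⟨i, c⟩ := s
  obtain ⟨m, hm⟩ := E2.smul_out g i c
  refine ⟨-m * n i, fun t => ?_⟩
  have h1 : LF n per (g • (⟨i, c⟩ : LineIdx n per)) (t + -m * n i) =
      (g • c).out * ell (per i) (t + -m * n i) := rfl
  have h2 : g • LF n per (⟨i, c⟩ : LineIdx n per) t = g * (c.out * ell (per i) t) := rfl
  rw [h1, h2, hm, E2.ell_zpow (per i) (n i) (h.periodic i)]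
  simp only [relr]
  group

/-- rotation subgroups act by translations by multiples of `n i` -/
theorem RF_spec (h : RelSys α ι n per κ) (s : LineIdx n per) (ρ : FreeGroup α)
    (hρ : ρ ∈ RF n per (Sum.inr s)) :
    ρ • s = s ∧ ∃ m : ℤ, (∀ i, ρ • LF n per s i = LF n per s (i + m * n s.1)) ∧
      (ρ ≠ 1 → m ≠ 0) := by
  obtain ⟨m, rfl⟩ := (E2.mem_RF s ρ).1 hρ
  obtain ⟨i, c⟩ := s
  refine ⟨?_, m, fun t => ?_, ?_⟩
  · have h1 : (c.out * relr n per i ^ m * c.out⁻¹) • c = c := by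
      have h2 : (c.out * relr n per i ^ m * c.out⁻¹) •
          ((c.out : FreeGroup α) : FreeGroup α ⧸ Subgroup.zpowers (relr n per i)) =
          ((c.out : FreeGroup α) : FreeGroup α ⧸ Subgroup.zpowers (relr n per i)) := by
        change ((c.out * relr n per i ^ m * c.out⁻¹ * c.out : FreeGroup α) :
          FreeGroup α ⧸ Subgroup.zpowers (relr n per i)) = ((c.out : FreeGroup α) : _)
        rw [QuotientGroup.eq]
        exact Subgroup.mem_zpowers_iff.2 ⟨-m, by group⟩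
      rwa [QuotientGroup.out_eq'] at h2
    exact Sigma.ext rfl (heq_of_eq h1)
  · change c.out * relr n per i ^ m * c.out⁻¹ * (c.out * ell (per i) t) =
      c.out * ell (per i) (t + m * n i)
    rw [E2.ell_zpow (per i) (n i) (h.periodic i)]
    simp only [relr]
    group
  · rintro h1 rfl
    exact h1 (by simp)

theorem RF_conj (g : FreeGroup α) (s : LineIdx n per) (ρ : FreeGroup α)
    (hρ : ρ ∈ RF n per (Sum.inr s)) : g * ρ * g⁻¹ ∈ RF n per (Sum.inr (g • s)) := by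
  obtain ⟨m, rfl⟩ := (E2.mem_RF s ρ).1 hρ
  obtain ⟨i, c⟩ := s
  obtain ⟨k, hk⟩ := E2.smul_out g i c
  refine (E2.mem_RF _ _).2 ⟨m, ?_⟩
  change g * (c.out * relr n per i ^ m * c.out⁻¹) * g⁻¹ =
    (g • c).out * relr n per i ^ m * (g • c).out⁻¹
  rw [hk]
  group

theorem RF_closure : Subgroup.closure
    (⋃ s ∈ (Set.range Sum.inr : Set (FreeGroup α ⊕ LineIdx n per)), (RF n per s : Set (FreeGroup α)))
      = NR n per := by
  apply le_antisymm
  · rw [Subgroup.closure_le]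
    intro ρ hρ
    simp only [Set.mem_iUnion, Set.mem_range, exists_prop] at hρ
    obtain ⟨_, ⟨s, rfl⟩, hρ⟩ := hρ
    obtain ⟨m, rfl⟩ := (E2.mem_RF s ρ).1 hρ
    have h1 : relr n per s.1 ∈ NR n per := Subgroup.subset_normalClosure ⟨s.1, rfl⟩
    exact (Subgroup.normalClosure_normal (s := Set.range (relr n per))).conj_mem _
      (Subgroup.zpow_mem _ h1 m) _
  · unfold NR Subgroup.normalClosure
    rw [Subgroup.closure_le]
    intro ρ hρ
    rw [Group.mem_conjugatesOfSet_iff] at hρ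
    obtain ⟨_, ⟨i, rfl⟩, hconj⟩ := hρ
    obtain ⟨g, rfl⟩ := isConj_iff.1 hconj
    apply Subgroup.subset_closure
    simp only [Set.mem_iUnion, Set.mem_range, exists_prop]
    refine ⟨Sum.inr ⟨i, (g : FreeGroup α ⧸ Subgroup.zpowers (relr n per i))⟩, ⟨_, rfl⟩, ?_⟩
    refine (E2.mem_RF _ _).2 ⟨1, ?_⟩
    obtain ⟨h, hh⟩ := QuotientGroup.mk_out_eq_mul (Subgroup.zpowers (relr n per i)) g
    obtain ⟨m, hm⟩ := Subgroup.mem_zpowers_iff.1 h.2
    change g * relr n per i * g⁻¹ =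
      (g : FreeGroup α ⧸ Subgroup.zpowers (relr n per i)).out * relr n per i ^ (1 : ℤ) *
        (g : FreeGroup α ⧸ Subgroup.zpowers (relr n per i)).out⁻¹
    rw [hh, ← hm]
    group

end E

end Pool.Agent.Lib.MP_54ccb1_al
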