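import Pool.Agent.Lib.MP_54ccb1_al.A1
import Pool.Agent.Lib.MP_54ccb1_al.A4c
import Pool.Agent.Lib.MP_54ccb1_al.B
import Pool.Agent.Lib.MP_54ccb1_al.C
import Pool.Agent.Lib.MP_54ccb1_al.E1
import Pool.Agent.Lib.MP_54ccb1_al.E2

set_option autoImplicit false

namespace Pool.Agent.Lib.MP_54ccb1_al

open Pool.Agent.Lib.MP_f1646b_al (IsGeo Btw CAS ActCAS RotFam)

/-! ## F (Greendlinger) -/

section F
variable {α ι : Type*} [DecidableEq α] {n : ι → ℕ} {per : ι → ℤ → α × Bool} {κ : ℕ}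

namespace F

/-- the size of the rotations -/
def tau (n : ι → ℕ) (per : ι → ℤ → α × Bool) : FreeGroup α ⊕ LineIdx n per → ℕ
  | Sum.inl _ => 0
  | Sum.inr s => n s.1

theorem big (h : RelSys α ι n per κ) (s : LineIdx n per) (ρ : FreeGroup α)
    (hρ : ρ ∈ RF n per (Sum.inr s)) (h1 : ρ ≠ 1) (x : FreeGroup α ⊕ LineIdx n per)
    (hx : x ≠ Sum.inr s) : 2 * n s.1 ≤ ang fd (LF n per) (Sum.inr s) x (ρ • x) := by
  obtain ⟨hs, m, hm, hm0⟩ := RF_spec h s ρ hρ
  rw [ang_rot (tl h) (fun g x y => fd_inv g x y) (LF_eqv h) hs hm x hx]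
  have h2 : 1 ≤ m.natAbs := Nat.one_le_iff_ne_zero.2 (Int.natAbs_ne_zero.2 (hm0 h1))
  rw [Int.natAbs_mul, Int.natAbs_natCast]
  nlinarith

theorem rotFam (h : RelSys α ι n per κ) :
    RotFam (FreeGroup α) (cd fd (LF n per)) (Set.range Sum.inr) (ang fd (LF n per)) (42 * κ)
      (336 * κ + 1) (RF n per) where
  act := actCAS (tl h) (fun g x y => fd_inv g x y) (LF_eqv h)
  fix := by
    rintro _ ⟨s, rfl⟩ ρ hρ
    have := (RF_spec h s ρ hρ).1
    rw [Sum.smul_inr, this]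
  conj := by
    rintro g _ ⟨s, rfl⟩ ρ hρ
    rw [Sum.smul_inr]
    exact RF_conj g s ρ hρ
  big := by
    rintro _ ⟨s, rfl⟩ ρ hρ h1 x hx
    have h2 := big h s ρ hρ h1 x hx
    have := h.large s.1
    omega
  large := by omega

end F

theorem greendlinger (h : RelSys α ι n per κ) (g : FreeGroup α) (hg : g ∈ NR n per) (hg1 : g ≠ 1) :
    ∃ (u : FreeGroup α) (i : ι) (x y : ℤ), n i ≤ (x - y).natAbs + 56 * κ ∧
      fd 1 g = fd 1 (u * ell (per i) x) + (x - y).natAbs + fd (u * ell (per i) y) g := by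
  have hR := F.rotFam h
  rw [← RF_closure] at hg
  have hx : g • (Sum.inl 1 : FreeGroup α ⊕ LineIdx n per) ≠ Sum.inl 1 := by
    rw [Sum.smul_inl, smul_eq_mul, mul_one]
    intro h'
    exact hg1 (Sum.inl_injective h')
  obtain ⟨_, ⟨s, rfl⟩, -, -, h2⟩ := strong_wg hR (F.tau n per)
    (by rintro g _ ⟨s, rfl⟩; rfl)
    (by
      rintro _ ⟨s, rfl⟩
      have := h.large s.1
      simp only [F.tau]
      omega)
    (by
      rintro _ ⟨s, rfl⟩ ρ hρ h1 x hx
      exact F.big h s ρ hρ h1 x hx) g hg (Sum.inl 1) hx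
  rw [Sum.smul_inl, smul_eq_mul, mul_one] at h2
  obtain ⟨p, hp⟩ := exists_gate (tl h) s (1 : FreeGroup α)
  obtain ⟨q, hq⟩ := exists_gate (tl h) s g
  have h3 := ang_gate (tl h) hp hq
  simp only [F.tau] at h2
  have h4 := h.large s.1
  refine ⟨s.2.out, s.1, p, q, by omega, ?_⟩
  exact gate_btw (tl h) hp hq (by
    rintro rfl
    simp only [sub_self, Int.natAbs_zero] at h3
    omega)

end F

end Pool.Agent.Lib.MP_54ccb1_al
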