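import Pool.Agent.Lib.MP_54ccb1_al.Defs

set_option autoImplicit false

namespace Pool.Agent.Lib.MP_54ccb1_al

variable {α : Type*} [DecidableEq α]

namespace G1

theorem cyc_of_min (w : FreeGroup α)
    (hmin : ∀ u : FreeGroup α, w.norm ≤ (u * w * u⁻¹).norm) :
    FreeGroup.IsCyclicallyReduced w.toWord := by
  have h := FreeGroup.reduceCyclically.conj_conjugator_reduceCyclically w.toWord
  set C := FreeGroup.reduceCyclically.conjugator w.toWord with hC
  set R := FreeGroup.reduceCyclically w.toWord with hR
  have hw : w = FreeGroup.mk C * FreeGroup.mk R * (FreeGroup.mk C)⁻¹ := by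
    rw [FreeGroup.inv_mk, FreeGroup.mul_mk, FreeGroup.mul_mk, h, FreeGroup.mk_toWord]
  have h1 := hmin (FreeGroup.mk C)⁻¹
  have h2 : (FreeGroup.mk C)⁻¹ * w * ((FreeGroup.mk C)⁻¹)⁻¹ = FreeGroup.mk R := by
    rw [hw]; group
  rw [h2] at h1
  have h3 : (FreeGroup.mk R).norm ≤ R.length := FreeGroup.norm_mk_le
  have h4 : w.norm = C.length + R.length + C.length := by
    unfold FreeGroup.norm
    conv_lhs => rw [← h]
    simp
    ring
  have h5 : C = [] := by
    rw [← List.length_eq_zero_iff]; omega
  rw [h5] at h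
  have h6 : R = w.toWord := by simpa using h
  rw [← h6]
  exact FreeGroup.reduceCyclically.isCyclicallyReduced FreeGroup.isReduced_toWord

omit [DecidableEq α] in
theorem ne_flip {x y : α × Bool} (h : x.1 = y.1 → x.2 = y.2) : y ≠ flip x := by
  intro hy
  rw [hy] at h
  simp [flip] at h

end G1

/-- a shortest element of its conjugacy class as a periodic function -/
theorem exists_cyc (w : FreeGroup α) (hw : w ≠ 1)
    (hmin : ∀ u : FreeGroup α, w.norm ≤ (u * w * u⁻¹).norm) :
    ∃ f : ℤ → α × Bool, (∀ t, f (t + 1) ≠ flip (f t)) ∧ (∀ t, f (t + w.norm) = f t) ∧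
      ell f w.norm = w := by
  obtain ⟨hred, hcyc⟩ := G1.cyc_of_min w hmin
  set W := w.toWord with hW
  have hq : 0 < w.norm := by
    rcases Nat.eq_zero_or_pos w.norm with h | h
    · exact absurd (FreeGroup.norm_eq_zero.mp h) hw
    · exact h
  have hlen : W.length = w.norm := rfl
  have hidx : ∀ t : ℤ, (t % (w.norm : ℤ)).toNat < W.length := by
    intro t
    have h1 := Int.emod_nonneg t (show (w.norm : ℤ) ≠ 0 by omega)
    have h2 := Int.emod_lt_of_pos t (show (0 : ℤ) < w.norm by omega)
    omega
  refine ⟨fun t => W[(t % (w.norm : ℤ)).toNat]'(hidx t), ?_, ?_, ?_⟩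
  · intro t
    apply G1.ne_flip
    have h1 := Int.emod_nonneg t (show (w.norm : ℤ) ≠ 0 by omega)
    have h2 := Int.emod_lt_of_pos t (show (0 : ℤ) < w.norm by omega)
    obtain ⟨m, hm⟩ := Int.eq_ofNat_of_zero_le h1
    have hmq : m < w.norm := by omega
    rcases Nat.lt_or_ge (m + 1) w.norm with h3 | h3
    · have h4 : (t + 1) % (w.norm : ℤ) = ((m + 1 : ℕ) : ℤ) := by
        rw [Int.add_emod, hm]
        rw [← Nat.cast_one, ← Int.natCast_mod, ← Nat.cast_add, ← Int.natCast_mod]
        norm_cast
        rw [Nat.add_mod_mod]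
        exact Nat.mod_eq_of_lt h3
      have key := List.isChain_iff_getElem.mp hred m (by omega)
      simp only [hm, h4, Int.toNat_natCast]
      exact key
    · have h5 : m + 1 = w.norm := by omega
      have h4 : (t + 1) % (w.norm : ℤ) = 0 := by
        rw [Int.add_emod, hm, ← Nat.cast_one, ← Int.natCast_mod, ← Nat.cast_add, ← Int.natCast_mod]
        norm_cast
        rw [Nat.add_mod_mod, h5, Nat.mod_self]
      simp only [hm, h4, Int.toNat_natCast, Int.toNat_zero]
      apply hcyc
      · rw [List.getLast?_eq_getElem?]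
        have h6 : W.length - 1 = m := by omega
        rw [h6]
        simp
      · rw [List.head?_eq_getElem?]
        simp
  · intro t
    simp only [Int.add_emod_right]
  · unfold ell
    have h1 : (-(w.norm : ℤ)).toNat = 0 := by omega
    rw [h1]
    have h2 : rd (fun t : ℤ => W[(t % (w.norm : ℤ)).toNat]'(hidx t)) 0 (w.norm : ℤ).toNat = W := by
      unfold rd
      apply List.ext_getElem
      · simp [hlen]
      · intro i hi1 hi2
        have hi : i < w.norm := by simpa using hi1
        have h3 : (0 + (i : ℤ)) % (w.norm : ℤ) = (i : ℤ) := by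
          rw [zero_add]
          exact Int.emod_eq_of_lt (by omega) (by omega)
        simp only [List.getElem_map, List.getElem_range, h3, Int.toNat_natCast]
    rw [h2]
    have h3 : FreeGroup.mk (rd (fun t : ℤ => W[(t % (w.norm : ℤ)).toNat]'(hidx t)) (w.norm : ℤ) 0)
        = 1 := rfl
    rw [h3, inv_one, mul_one, hW, FreeGroup.mk_toWord]

end Pool.Agent.Lib.MP_54ccb1_al
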