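import Pool.Agent.Lib.MP_54ccb1_al.A1
import Pool.Agent.Lib.MP_54ccb1_al.C
import Pool.Agent.Lib.MP_54ccb1_al.D

set_option autoImplicit false

namespace Pool.Agent.Lib.MP_54ccb1_al

open Pool.Agent.Lib.MP_f1646b_al (IsGeo Btw CAS ActCAS RotFam BigSet Psi mu GeoPath)


section G
variable {α : Type*} [DecidableEq α]

namespace G2

/-- a point of the segment `[P, P']`, which lies in the segment `[1, ell f M]` -/
theorem key (f : ℤ → α × Bool) (hf : ∀ t, f (t + 1) ≠ flip (f t)) (M : ℕ)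
    (P R P' : FreeGroup α) (k l : ℕ)
    (h : fd 1 (ell f M) = fd 1 P + (k + l) + fd P' (ell f M))
    (hk : fd P R = k) (hl : fd R P' = l) : ell f ((fd 1 P : ℤ) + k) = R := by
  have hg := fd_geo (α := α)
  have h1 := hg.tri 1 P R
  have h2 := hg.tri R P' (ell f M)
  have h3 := hg.tri 1 R (ell f M)
  have hM : fd 1 (ell f M) = M := by
    have := ell_dist f hf 0 M
    rw [ell_zero] at this
    rw [this]; simp
  have ha : fd 1 (ell f ((fd 1 P : ℤ) + k)) = fd 1 P + k := by
    have := ell_dist f hf 0 ((fd 1 P : ℤ) + k)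
    rw [ell_zero] at this
    rw [this]; omega
  have hb : fd (ell f ((fd 1 P : ℤ) + k)) (ell f M) = M - (fd 1 P + k) := by
    rw [ell_dist f hf]; omega
  refine btw_unique hg fd_thin (x := 1) (y := ell f M) ?_ ?_ ?_
  · unfold Pool.Agent.Lib.MP_f1646b_al.Btw; omega
  · unfold Pool.Agent.Lib.MP_f1646b_al.Btw; omega
  · omega

end G2

/-- a line which overlaps the segment from `1` to `ell f M` -/
theorem on_axis (f e : ℤ → α × Bool) (hf : ∀ t, f (t + 1) ≠ flip (f t))
    (he : ∀ t, e (t + 1) ≠ flip (e t)) (M : ℕ) (u : FreeGroup α) (x y : ℤ)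
    (h : fd 1 (ell f M) = fd 1 (u * ell e x) + (x - y).natAbs + fd (u * ell e y) (ell f M)) :
    ∃ t₀ : ℤ, (∀ k : ℕ, k ≤ (x - y).natAbs → ell f (t₀ + k) = u * ell e (x + k)) ∨
      (∀ k : ℕ, k ≤ (x - y).natAbs → ell f (t₀ + k) = u * ell e (x - k)) := by
  refine ⟨fd 1 (u * ell e x), ?_⟩
  rcases le_total x y with hxy | hxy
  · left
    intro k hk
    refine G2.key f hf M _ _ (u * ell e y) k ((x - y).natAbs - k) ?_ ?_ ?_
    · rw [h]; omega
    · rw [fd_inv, ell_dist e he]; omega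
    · rw [fd_inv, ell_dist e he]; omega
  · right
    intro k hk
    refine G2.key f hf M _ _ (u * ell e y) k ((x - y).natAbs - k) ?_ ?_ ?_
    · rw [h]; omega
    · rw [fd_inv, ell_dist e he]; omega
    · rw [fd_inv, ell_dist e he]; omega

end G

end Pool.Agent.Lib.MP_54ccb1_al
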