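import Pool.Agent.Lib.MP_54ccb1_al.C
import Pool.Agent.Lib.MP_54ccb1_al.D
import Pool.Agent.Lib.MP_54ccb1_al.F
import Pool.Agent.Lib.MP_54ccb1_al.G1
import Pool.Agent.Lib.MP_54ccb1_al.G2

set_option autoImplicit false

namespace Pool.Agent.Lib.MP_54ccb1_al

open Pool.Agent.Lib.MP_f1646b_al (IsGeo Btw CAS ActCAS RotFam BigSet Psi mu GeoPath)

/-! ## G3 -/

namespace G3

variable {α ι : Type*} [DecidableEq α] {n : ι → ℕ} {per : ι → ℤ → α × Bool} {κ : ℕ}

theorem mk_single_inj {a b : α × Bool} (h : FreeGroup.mk [a] = FreeGroup.mk [b]) : a = b := by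
  have h1 := congrArg FreeGroup.toWord h
  have h2 : ∀ c : α × Bool, (FreeGroup.mk [c]).toWord = [c] := by
    intro c
    rw [FreeGroup.toWord_mk]
    simp
  rw [h2, h2] at h1
  simpa using h1

omit [DecidableEq α] in
theorem flip_flip (a : α × Bool) : flip (flip a) = a := by
  simp [flip]

omit [DecidableEq α] in
theorem mk_flip (a : α × Bool) : (FreeGroup.mk [a])⁻¹ = FreeGroup.mk [flip a] := by
  rw [FreeGroup.inv_mk]
  simp [FreeGroup.invRev, flip]

omit [DecidableEq α] in
theorem relr_mem (i : ι) : relr n per i ∈ NR n per :=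
  Subgroup.subset_normalClosure ⟨i, rfl⟩

omit [DecidableEq α] in
theorem normal_NR : (NR n per).Normal := by
  unfold NR
  infer_instance

/-- the set in which the word is minimal -/
def Bad (n : ι → ℕ) (per : ι → ℤ → α × Bool) (m : ℕ) (v : FreeGroup α) : Prop :=
  v ∉ NR n per ∧ v ^ m ∈ NR n per

omit [DecidableEq α] in
theorem Bad.conj {m : ℕ} {v : FreeGroup α} (hv : Bad n per m v) (u : FreeGroup α) :
    Bad n per m (u * v * u⁻¹) := by
  have hN : (NR n per).Normal := normal_NR
  refine ⟨fun h => hv.1 ?_, ?_⟩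
  · have := hN.conj_mem _ h u⁻¹
    simpa [mul_assoc] using this
  · rw [conj_pow]
    exact hN.conj_mem _ hv.2 u

omit [DecidableEq α] in
theorem Bad.mul_left {m : ℕ} {v : FreeGroup α} (hv : Bad n per m v) {k : FreeGroup α}
    (hk : k ∈ NR n per) : Bad n per m (k * v) := by
  have hN : (NR n per).Normal := normal_NR
  refine ⟨fun h => hv.1 ?_, ?_⟩
  · exact (Subgroup.mul_mem_cancel_left _ hk).1 h
  · have h1 : ((k * v : FreeGroup α) : FreeGroup α ⧸ NR n per) = (v : FreeGroup α ⧸ NR n per) := by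
      rw [QuotientGroup.mk_mul, (QuotientGroup.eq_one_iff k).2 hk, one_mul]
    rw [← QuotientGroup.eq_one_iff, QuotientGroup.mk_pow, h1, ← QuotientGroup.mk_pow,
      QuotientGroup.eq_one_iff]
    exact hv.2

theorem fd_mul (a b c : FreeGroup α) : fd a c ≤ fd a b + fd b c := fd_geo.tri a b c

theorem norm_mul_le' (a b : FreeGroup α) : (a * b).norm ≤ a.norm + b.norm :=
  FreeGroup.norm_mul_le a b

/-- the main step -/
theorem core (h : RelSys α ι n per κ) {m : ℕ} {w : FreeGroup α} (hw : Bad n per m w)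
    (hmin : ∀ v, Bad n per m v → w.norm ≤ v.norm) {f : ℤ → α × Bool}
    (hf : ∀ t, f (t + 1) ≠ flip (f t)) (hfq : ∀ t, f (t + w.norm) = f t)
    (hw' : ell f w.norm = w) (t₀ : ℤ) (i : ι) (E : ℤ → FreeGroup α) (K : ℕ)
    (hK : n i ≤ K + 56 * κ)
    (hE : ∀ k : ℕ, k ≤ K → ell f (t₀ + k) = E k) (hEd : ∀ a b, fd (E a) (E b) = (a - b).natAbs)
    (hEN : (E 0)⁻¹ * E (n i) ∈ NR n per) :
    w.norm + κ + 1 < K ∧ w.norm < n i := by
  have hlarge := h.large i
  have hone := h.one_le
  set q := w.norm with hq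
  have hN : (NR n per).Normal := normal_NR
  -- the conjugate `v`
  have hv : Bad n per m ((ell f t₀)⁻¹ * ell f (t₀ + q)) := by
    have h1 : (ell f t₀)⁻¹ * ell f (t₀ + q) = (ell f t₀)⁻¹ * w * ((ell f t₀)⁻¹)⁻¹ := by
      rw [ell_period f q hfq t₀, hw', inv_inv, mul_assoc]
    rw [h1]
    exact hw.conj _
  have hE0 : ell f t₀ = E 0 := by
    have := hE 0 (Nat.zero_le _)
    simpa using this
  -- replace the initial part
  have hv' : Bad n per m ((E (n i))⁻¹ * ell f (t₀ + q)) := by
    have h1 : (E (n i))⁻¹ * ell f (t₀ + q) =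
        ((E 0)⁻¹ * E (n i))⁻¹ * ((ell f t₀)⁻¹ * ell f (t₀ + q)) := by
      rw [hE0]; group
    rw [h1]
    exact hv.mul_left ((NR n per).inv_mem hEN)
  have hmin' := hmin _ hv'
  -- first case
  by_cases hqK : q < min K (n i)
  · have h1 : ell f (t₀ + q) = E q := hE q (by omega)
    have h2 : ((E (n i))⁻¹ * ell f (t₀ + q)).norm = ((n i : ℤ) - q).natAbs := by
      rw [h1]
      exact hEd _ _
    rw [h2] at hmin'
    omega
  · exfalso
    have h1 : ell f (t₀ + (min K (n i) : ℕ)) = E (min K (n i) : ℕ) := hE _ (by omega)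
    have h2 : ((E (n i))⁻¹ * ell f (t₀ + q)).norm ≤
        fd (E (n i)) (E (min K (n i) : ℕ)) + fd (ell f (t₀ + (min K (n i) : ℕ))) (ell f (t₀ + q)) := by
      rw [h1]
      exact fd_mul _ _ _
    rw [hEd, ell_dist f hf] at h2
    omega

end G3

section G
variable {α ι : Type*} [DecidableEq α] {n : ι → ℕ} {per : ι → ℤ → α × Bool} {κ : ℕ}

theorem of_not_mem (h : RelSys α ι n per κ) (a : α) : FreeGroup.of a ∉ NR n per := by
  intro ha
  obtain ⟨u, i, x, y, h1, h2⟩ := greendlinger h _ ha (FreeGroup.of_ne_one a)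
  have h3 : fd 1 (FreeGroup.of a) = 1 := by
    unfold fd
    simp
  have := h.large i
  have := h.one_le
  omega

theorem torsion_free (h : RelSys α ι n per κ) (w : FreeGroup α) (m : ℕ) (hm : 0 < m)
    (hw : w ^ m ∈ NR n per) : w ∈ NR n per := by
  classical
  by_contra hwN
  -- a minimal element
  have hex : ∃ k, ∃ v, G3.Bad n per m v ∧ v.norm = k := ⟨_, w, ⟨hwN, hw⟩, rfl⟩
  obtain ⟨w, hw, hk⟩ := Nat.find_spec hex
  have hmin : ∀ v, G3.Bad n per m v → w.norm ≤ v.norm := by
    intro v hv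
    rw [hk]
    exact Nat.find_min' hex ⟨v, hv, rfl⟩
  have hN : (NR n per).Normal := G3.normal_NR
  have hw1 : w ≠ 1 := fun h1 => hw.1 (h1 ▸ (NR n per).one_mem)
  obtain ⟨f, hf, hfq, hfw⟩ := exists_cyc w hw1 fun u => hmin _ (hw.conj u)
  have hq : 0 < w.norm := by
    rcases Nat.eq_zero_or_pos w.norm with h0 | h0
    · exact absurd (FreeGroup.norm_eq_zero.1 h0) hw1
    · exact h0
  have hpow : ∀ k : ℕ, ell f ((k * w.norm : ℕ) : ℤ) = w ^ k := by
    intro k
    induction k with
    | zero => simp [ell_zero]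
    | succ k ih =>
      have h1 : (((k + 1) * w.norm : ℕ) : ℤ) = ((k * w.norm : ℕ) : ℤ) + (w.norm : ℤ) := by
        push_cast; ring
      rw [h1, ell_period f w.norm hfq, ih, hfw, pow_succ']
  have hne : w ^ m ≠ 1 := by
    intro h1
    have h2 := ell_dist f hf ((m * w.norm : ℕ) : ℤ) 0
    rw [hpow, ell_zero, h1] at h2
    have h3 : fd (1 : FreeGroup α) 1 = 0 := by simp [fd]
    rw [h3] at h2
    have h4 : 0 < m * w.norm := Nat.mul_pos hm hq
    omega
  obtain ⟨u, i, x, y, hK, hfd⟩ := greendlinger h _ hw.2 hne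
  rw [← hpow] at hfd
  obtain ⟨t₀, ht⟩ := on_axis f (per i) hf (h.red i) (m * w.norm) u x y hfd
  have hlarge := h.large i
  have hone := h.one_le
  have hper : ∀ t : ℤ, ell (per i) (t + n i) = relr n per i * ell (per i) t := fun t =>
    ell_period (per i) (n i) (h.periodic i) t
  have hletter : ∀ t : ℤ, (ell f t)⁻¹ * ell f (t + 1) = FreeGroup.mk [f t] := by
    intro t
    rw [ell_succ]; group
  have hdvd : ¬ ((n i : ℤ) ∣ (w.norm : ℤ) ∧ w.norm < n i) := by
    rintro ⟨h1, h2⟩
    have := Int.le_of_dvd (by exact_mod_cast hq) h1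
    omega
  rcases ht with ht | ht
  · -- orientation `+`
    obtain ⟨hc1, hc2⟩ := G3.core h hw hmin hf hfq hfw t₀ i (fun k => u * ell (per i) (x + k))
      (x - y).natAbs hK ht
      (by
        intro a b
        rw [fd_inv, ell_dist _ (h.red i)]
        congr 1
        ring)
      (by
        have h1 : (u * ell (per i) (x + 0))⁻¹ * (u * ell (per i) (x + n i)) =
            (ell (per i) x)⁻¹ * relr n per i * ((ell (per i) x)⁻¹)⁻¹ := by
          rw [hper, add_zero]; group
        show (u * ell (per i) (x + 0))⁻¹ * (u * ell (per i) (x + n i)) ∈ NR n per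
        rw [h1]
        exact hN.conj_mem _ (G3.relr_mem i) _)
    have hl : ∀ k : ℕ, k < (x - y).natAbs → f (t₀ + k) = per i (x + k) := by
      intro k hk
      apply G3.mk_single_inj
      rw [← hletter, ht k hk.le]
      have h1 := ht (k + 1) hk
      have h2 : t₀ + (k : ℤ) + 1 = t₀ + ((k + 1 : ℕ) : ℤ) := by push_cast; ring
      have h3 : x + ((k + 1 : ℕ) : ℤ) = x + k + 1 := by push_cast; ring
      rw [h2, h1, h3, ell_succ]
      group
    apply hdvd
    refine ⟨?_, hc2⟩
    have := (h.same i i (x + w.norm) x ?_).2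
    · simpa using this
    · intro k hk
      have h1 := hl k (by omega)
      have h2 := hl (w.norm + k) (by omega)
      have h3 := hfq (t₀ + k)
      have h4 : t₀ + (k : ℤ) + (w.norm : ℤ) = t₀ + ((w.norm + k : ℕ) : ℤ) := by push_cast; ring
      have h5 : x + (w.norm : ℤ) + k = x + ((w.norm + k : ℕ) : ℤ) := by push_cast; ring
      rw [h4, h2, h1] at h3
      rw [h5]
      exact h3
  · -- orientation `-`
    obtain ⟨hc1, hc2⟩ := G3.core h hw hmin hf hfq hfw t₀ i (fun k => u * ell (per i) (x - k))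
      (x - y).natAbs hK ht
      (by
        intro a b
        rw [fd_inv, ell_dist _ (h.red i)]
        omega)
      (by
        have h0 := hper (x - n i)
        rw [sub_add_cancel] at h0
        have h1 : (u * ell (per i) (x - 0))⁻¹ * (u * ell (per i) (x - n i)) =
            (ell (per i) x)⁻¹ * (relr n per i)⁻¹ * ((ell (per i) x)⁻¹)⁻¹ := by
          rw [sub_zero, h0]; group
        show (u * ell (per i) (x - 0))⁻¹ * (u * ell (per i) (x - n i)) ∈ NR n per
        rw [h1]
        exact hN.conj_mem _ ((NR n per).inv_mem (G3.relr_mem i)) _)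
    have hl : ∀ k : ℕ, k < (x - y).natAbs → f (t₀ + k) = flip (per i (x - 1 - k)) := by
      intro k hk
      apply G3.mk_single_inj
      rw [← hletter, ht k hk.le]
      have h1 := ht (k + 1) hk
      have h2 : t₀ + (k : ℤ) + 1 = t₀ + ((k + 1 : ℕ) : ℤ) := by push_cast; ring
      have h3 : x - ((k + 1 : ℕ) : ℤ) = x - 1 - k := by push_cast; ring
      have h4 := ell_succ (per i) (x - 1 - k)
      have h5 : x - 1 - (k : ℤ) + 1 = x - k := by ring
      rw [h5] at h4
      rw [h2, h1, h3, h4, ← G3.mk_flip]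
      group
    apply hdvd
    refine ⟨?_, hc2⟩
    have := (h.same i i (x - 1 - κ) (x - 1 - κ - w.norm) ?_).2
    · have h6 : x - 1 - (κ : ℤ) - (x - 1 - κ - w.norm) = w.norm := by ring
      rwa [h6] at this
    · intro k hk
      have h1 := hl (κ - k) (by omega)
      have h2 := hl (w.norm + (κ - k)) (by omega)
      have h3 := hfq (t₀ + (κ - k : ℕ))
      have h4 : t₀ + ((κ - k : ℕ) : ℤ) + (w.norm : ℤ) = t₀ + ((w.norm + (κ - k) : ℕ) : ℤ) := by
        push_cast; ring
      rw [h4, h2, h1] at h3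
      have h5 := congrArg flip h3
      rw [G3.flip_flip, G3.flip_flip] at h5
      have h7 : x - 1 - ((κ - k : ℕ) : ℤ) = x - 1 - κ + k := by omega
      have h8 : x - 1 - ((w.norm + (κ - k) : ℕ) : ℤ) = x - 1 - κ - w.norm + k := by omega
      rw [h7, h8] at h5
      exact h5.symm

end G

end Pool.Agent.Lib.MP_54ccb1_al
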