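import Pool.Agent.Lib.MP_54ccb1_al.D

set_option autoImplicit false

namespace Pool.Agent.Lib.MP_54ccb1_al

namespace H

variable {α : Type*}

theorem flip_flip (a : α × Bool) : flip (flip a) = a := by
  simp [flip]

theorem rd_congr (f : ℤ → α × Bool) (N : ℕ) (hf : ∀ t, f (t + N) = f t) (x y : ℤ)
    (hxy : (N : ℤ) ∣ x - y) (k : ℕ) : rd f x k = rd f y k := by
  obtain ⟨m, hm⟩ := hxy
  have hp : Function.Periodic f (N : ℤ) := hf
  have h1 : ∀ t, f (t + m * N) = f t := hp.int_mul m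
  unfold rd
  refine List.map_congr_left fun j _ => ?_
  have e : x + (j : ℤ) = y + j + m * N := by linarith
  rw [e, h1]

theorem rd_rotate (f : ℤ → α × Bool) (N : ℕ) (hf : ∀ t, f (t + N) = f t) (m : ℕ) :
    (rd f 0 N).rotate m = rd f m N := by
  have hp : Function.Periodic f (N : ℤ) := hf
  refine List.ext_getElem ?_ ?_
  · rw [List.length_rotate, D.rd_length, D.rd_length]
  · intro k h1 h2
    rw [List.getElem_rotate, D.rd_getElem, D.rd_getElem, D.rd_length]
    have h3 : (((k + m : ℕ) : ℤ)) = (((k + m) % N : ℕ) : ℤ) + (((k + m) / N : ℕ) : ℤ) * N := by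
      have := Nat.mod_add_div (k + m) N
      have h4 : ((((k + m) % N + N * ((k + m) / N) : ℕ)) : ℤ) = ((k + m : ℕ) : ℤ) := by
        rw [this]
      push_cast at h4 ⊢
      linarith
    have h5 : ∀ t, f (t + (((k + m) / N : ℕ) : ℤ) * N) = f t :=
      hp.int_mul (((k + m) / N : ℕ) : ℤ)
    have h6 : (m : ℤ) + k = 0 + (((k + m) % N : ℕ) : ℤ) + (((k + m) / N : ℕ) : ℤ) * N := by
      push_cast at h3 ⊢
      linarith
    rw [h6, h5]

theorem rev_periodic (f : ℤ → α × Bool) (N : ℕ) (hf : ∀ t, f (t + N) = f t) (t : ℤ) :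
    (fun t => flip (f (-1 - t))) (t + N) = (fun t => flip (f (-1 - t))) t := by
  show flip (f (-1 - (t + N))) = flip (f (-1 - t))
  have h := hf (-1 - (t + N))
  rw [← h]
  congr 2
  ring

theorem rev_red (f : ℤ → α × Bool) (hf : ∀ t, f (t + 1) ≠ flip (f t)) (t : ℤ) :
    (fun t => flip (f (-1 - t))) (t + 1) ≠ flip ((fun t => flip (f (-1 - t))) t) := by
  show flip (f (-1 - (t + 1))) ≠ flip (flip (f (-1 - t)))
  rw [flip_flip]
  intro h
  have h1 := hf (-1 - (t + 1))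
  rw [h] at h1
  apply h1
  congr 1
  ring

theorem invRev_rd (f : ℤ → α × Bool) (N : ℕ) (hf : ∀ t, f (t + N) = f t) :
    FreeGroup.invRev (rd f 0 N) = rd (fun t => flip (f (-1 - t))) 0 N := by
  refine List.ext_getElem ?_ ?_
  · rw [FreeGroup.invRev_length, D.rd_length, D.rd_length]
  · intro k h1 h2
    rw [D.rd_length] at h2
    rw [D.rd_getElem]
    simp only [FreeGroup.invRev, List.getElem_reverse, List.getElem_map, D.rd_getElem,
      List.length_map, D.rd_length]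
    have h := hf (-1 - (0 + (k : ℤ)))
    have e : (0 : ℤ) + ((N - 1 - k : ℕ) : ℤ) = -1 - (0 + (k : ℤ)) + N := by
      have : N - 1 - k + (1 + k) = N := by omega
      have h3 : ((N - 1 - k + (1 + k) : ℕ) : ℤ) = (N : ℤ) := by rw [this]
      push_cast at h3
      linarith
    rw [e, h]
    rfl

theorem prefix_letters (f g : ℤ → α × Bool) (x y : ℤ) (N M κ : ℕ) (u : List (α × Bool))
    (h1 : List.IsPrefix u (rd f x N)) (h2 : List.IsPrefix u (rd g y M)) (hu : κ < u.length)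
    (k : ℕ) (hk : k ≤ κ) : f (x + k) = g (y + k) := by
  have h3 : k < u.length := lt_of_le_of_lt hk hu
  have h4 := h1.getElem h3
  have h5 := h2.getElem h3
  rw [D.rd_getElem] at h4 h5
  rw [← h4, ← h5]

variable [DecidableEq α]

theorem toWord_mk_rd (f : ℤ → α × Bool) (hf : ∀ t, f (t + 1) ≠ flip (f t)) (x : ℤ) (k : ℕ) :
    (FreeGroup.mk (rd f x k)).toWord = rd f x k := by
  rw [FreeGroup.toWord_mk]
  exact (rd_reduced f hf x k).reduce_eq

variable {ι : Type*} {n : ι → ℕ} {per : ι → ℤ → α × Bool} {κ : ℕ}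

omit [DecidableEq α] in
theorem relr_eq (i : ι) : relr n per i = FreeGroup.mk (rd (per i) 0 (n i)) := by
  unfold relr ell
  have h1 : ((-((n i : ℕ) : ℤ)).toNat) = 0 := by omega
  rw [h1, Int.toNat_natCast]
  have h2 : rd (per i) ((n i : ℕ) : ℤ) 0 = [] := by simp [rd]
  rw [h2, FreeGroup.one_eq_mk.symm, inv_one, mul_one]

theorem toWord_relr (h : RelSys α ι n per κ) (i : ι) :
    (relr n per i).toWord = rd (per i) 0 (n i) := by
  rw [relr_eq]
  exact toWord_mk_rd _ (h.red i) _ _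

end H

section H
variable {α ι : Type*} [DecidableEq α] {n : ι → ℕ} {per : ι → ℤ → α × Bool} {κ : ℕ}

theorem rot_relr (h : RelSys α ι n per κ) (i : ι) (m : ℕ) :
    (relr n per i).toWord.rotate m = rd (per i) m (n i) := by
  rw [H.toWord_relr h]
  exact H.rd_rotate _ _ (h.periodic i) m

theorem rot_relr_inv (h : RelSys α ι n per κ) (i : ι) (m : ℕ) :
    (relr n per i)⁻¹.toWord.rotate m = rd (fun t => flip (per i (-1 - t))) m (n i) := by
  rw [FreeGroup.toWord_inv, H.toWord_relr h, H.invRev_rd _ _ (h.periodic i)]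
  exact H.rd_rotate _ _ (H.rev_periodic _ _ (h.periodic i)) m

theorem frozen_cyc (h : RelSys α ι n per κ) : ∀ r ∈ Set.range (relr n per), ∀ m : ℕ,
    FreeGroup.toWord (FreeGroup.mk ((FreeGroup.toWord r).rotate m)) =
      (FreeGroup.toWord r).rotate m := by
  rintro r ⟨i, rfl⟩ m
  rw [rot_relr h]
  exact H.toWord_mk_rd _ (h.red i) _ _

theorem frozen_sc (h : RelSys α ι n per κ) (lam : ℝ) (hl : ∀ i, (κ : ℝ) < lam * n i) :
    ∀ l₁ l₂ : List (α × Bool),
      (∃ r ∈ Set.range (relr n per), ∃ m : ℕ,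
        l₁ = (FreeGroup.toWord r).rotate m ∨ l₁ = (FreeGroup.toWord r⁻¹).rotate m) →
      (∃ r ∈ Set.range (relr n per), ∃ m : ℕ,
        l₂ = (FreeGroup.toWord r).rotate m ∨ l₂ = (FreeGroup.toWord r⁻¹).rotate m) →
      l₁ ≠ l₂ →
      ∀ u : List (α × Bool), List.IsPrefix u l₁ → List.IsPrefix u l₂ →
        (u.length : ℝ) < lam * (l₁.length : ℝ) := by
  rintro l₁ l₂ ⟨r₁, ⟨i, rfl⟩, m₁, h1⟩ ⟨r₂, ⟨j, rfl⟩, m₂, h2⟩ hne u hu1 hu2
  rw [rot_relr h, rot_relr_inv h] at h1 h2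
  have hlen : l₁.length = n i := by
    rcases h1 with h1 | h1 <;> rw [h1, D.rd_length]
  rw [hlen]
  refine lt_of_le_of_lt ?_ (hl i)
  by_contra hcon
  have hκ : κ < u.length := by
    by_contra h3
    exact hcon (by exact_mod_cast not_lt.1 h3)
  apply hne
  rcases h1 with h1 | h1 <;> rcases h2 with h2 | h2
  · rw [h1] at hu1
    rw [h2] at hu2
    obtain ⟨e, hd⟩ := h.same i j m₁ m₂ fun k hk => H.prefix_letters _ _ _ _ _ _ κ u hu1 hu2 hκ k hk
    subst e
    rw [h1, h2]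
    exact H.rd_congr _ _ (h.periodic i) _ _ hd _
  · exfalso
    rw [h1] at hu1
    rw [h2] at hu2
    refine h.opp i j m₁ (-1 - m₂) fun k hk => ?_
    rw [H.prefix_letters _ _ _ _ _ _ κ u hu1 hu2 hκ k hk]
    show flip (per j (-1 - (m₂ + k))) = flip (per j (-1 - m₂ - k))
    congr 2
    ring
  · exfalso
    rw [h1] at hu1
    rw [h2] at hu2
    refine h.opp j i m₂ (-1 - m₁) fun k hk => ?_
    rw [← H.prefix_letters _ _ _ _ _ _ κ u hu1 hu2 hκ k hk]
    show flip (per i (-1 - (m₁ + k))) = flip (per i (-1 - m₁ - k))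
    congr 2
    ring
  · rw [h1] at hu1
    rw [h2] at hu2
    obtain ⟨e, hd⟩ := h.same i j (-1 - m₁ - κ) (-1 - m₂ - κ) fun k hk => by
      have h3 := H.prefix_letters _ _ _ _ _ _ κ u hu1 hu2 hκ (κ - k) (Nat.sub_le _ _)
      have h4 : flip (per i (-1 - (m₁ + ((κ - k : ℕ) : ℤ)))) =
        flip (per j (-1 - (m₂ + ((κ - k : ℕ) : ℤ)))) := h3
      have h5 := congrArg flip h4
      rw [H.flip_flip, H.flip_flip, Nat.cast_sub hk] at h5
      have e1 : (-1 : ℤ) - m₁ - κ + k = -1 - (m₁ + (κ - k)) := by ring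
      have e2 : (-1 : ℤ) - m₂ - κ + k = -1 - (m₂ + (κ - k)) := by ring
      rw [e1, e2]
      exact h5
    subst e
    rw [h1, h2]
    refine H.rd_congr _ _ (H.rev_periodic _ _ (h.periodic i)) _ _ ?_ _
    have e3 : (m₁ : ℤ) - m₂ = -((-1 - m₁ - κ) - (-1 - m₂ - κ)) := by ring
    rw [e3]
    exact (dvd_neg).2 hd

end H

end Pool.Agent.Lib.MP_54ccb1_al
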