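import Mathlib

set_option autoImplicit false

namespace Pool.Agent.Lib.MP_54ccb1_al

/-- exponents -/
def ex (k : ℕ) (σ : Bool) (j : ℕ) : ℕ := k + j + (if σ then 0 else k)

/-- start of block `j` -/
def St (k : ℕ) (σ : Bool) (j : ℕ) : ℕ := ∑ i ∈ Finset.range j, (ex k σ i + 1)

/-- lengths of the relators -/
def nn (k : ℕ) (σ : Bool) : ℕ := St k σ k

/-- positions of the letters `b` -/
def Q (k : ℕ) (σ : Bool) (j : ℤ) : ℤ :=
  (j / k) * nn k σ + (St k σ ((j % k).toNat + 1) : ℤ) - 1

open Classical in
/-- the words -/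
noncomputable def per0 (k : ℕ) (σ : Bool) (t : ℤ) : Fin 2 × Bool :=
  if ∃ j, Q k σ j = t then (1, σ) else (0, true)

theorem nn_ge (k : ℕ) (σ : Bool) : k * k ≤ nn k σ := by
  have h : ∑ _i ∈ Finset.range k, k ≤ nn k σ := by
    unfold nn St
    apply Finset.sum_le_sum
    intro i _
    unfold ex
    omega
  simpa using h

theorem Q_succ (k : ℕ) (hk : 1 ≤ k) (σ : Bool) (j : ℤ) :
    Q k σ (j + 1) = Q k σ j + ex k σ ((j + 1) % k).toNat + 1 := by
  have hk0 : (0 : ℤ) < k := by exact_mod_cast hk
  have h0 := Int.emod_nonneg j hk0.ne'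
  have h1 := Int.emod_lt_of_pos j hk0
  have h2 := Int.mul_ediv_add_emod j k
  by_cases hm : j % k = k - 1
  · have e1 : (j + 1) / k = j / k + 1 := by
      have : j + 1 = k * (j / k + 1) := by linarith
      rw [this, Int.mul_ediv_cancel_left _ hk0.ne']
    have e2 : (j + 1) % k = 0 := by
      have : j + 1 = k * (j / k + 1) := by linarith
      rw [this, Int.mul_emod_right]
    have e3 : (j % k).toNat + 1 = k := by omega
    unfold Q
    rw [e1, e2, e3]
    simp only [Int.toNat_zero, zero_add]
    have : St k σ 1 = ex k σ 0 + 1 := by simp [St]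
    rw [this]
    have : St k σ k = nn k σ := rfl
    rw [this]
    push_cast
    ring
  · have e2 : (j + 1) % k = j % k + 1 := by
      have : j + 1 = (j % k + 1) + k * (j / k) := by linarith
      rw [this, Int.add_mul_emod_self_left]
      exact Int.emod_eq_of_lt (by omega) (by omega)
    have e1 : (j + 1) / k = j / k := by
      have h3 := Int.mul_ediv_add_emod (j + 1) k
      rw [e2] at h3
      have : (k : ℤ) * ((j + 1) / k) = k * (j / k) := by linarith
      exact mul_left_cancel₀ hk0.ne' this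
    unfold Q
    rw [e1, e2]
    have e3 : (j % k + 1).toNat = (j % k).toNat + 1 := by omega
    rw [e3]
    have : St k σ ((j % k).toNat + 1 + 1) = St k σ ((j % k).toNat + 1) + (ex k σ ((j % k).toNat + 1) + 1) := by
      unfold St
      rw [Finset.sum_range_succ]
    rw [this]
    push_cast
    ring

theorem Q_add_k (k : ℕ) (hk : 1 ≤ k) (σ : Bool) (j m : ℤ) :
    Q k σ (j + m * k) = Q k σ j + m * nn k σ := by
  have hk0 : (k : ℤ) ≠ 0 := by
    have : (0 : ℤ) < k := by exact_mod_cast hk
    exact this.ne'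
  unfold Q
  rw [Int.add_mul_ediv_right _ _ hk0, Int.add_mul_emod_self_right]
  ring

end Pool.Agent.Lib.MP_54ccb1_al
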