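import Pool.Agent.Lib.MP_54ccb1_al.Defs
import Pool.Agent.Lib.MP_54ccb1_al.I1

set_option autoImplicit false

namespace Pool.Agent.Lib.MP_54ccb1_al

namespace I2

theorem toNat_lt (k : ℕ) (hk : 1 ≤ k) (j : ℤ) : (j % (k : ℤ)).toNat < k := by
  have h1 : (0 : ℤ) ≤ j % k := Int.emod_nonneg _ (by omega)
  have h2 : j % (k : ℤ) < k := Int.emod_lt_of_pos _ (by omega)
  omega

theorem gap_ge (k : ℕ) (hk : 1 ≤ k) (σ : Bool) (j : ℤ) : Q k σ j + 2 ≤ Q k σ (j + 1) := by
  rw [Q_succ k hk]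
  have h : k ≤ ex k σ ((j + 1) % (k : ℤ)).toNat := by unfold ex; omega
  omega

theorem gap_le (k : ℕ) (hk : 1 ≤ k) (σ : Bool) (j : ℤ) : Q k σ (j + 1) ≤ Q k σ j + 3 * k := by
  rw [Q_succ k hk]
  have h0 := toNat_lt k hk (j + 1)
  have h : ex k σ ((j + 1) % (k : ℤ)).toNat + 1 ≤ 3 * k := by
    unfold ex
    split_ifs <;> omega
  omega

theorem mono (k : ℕ) (hk : 1 ≤ k) (σ : Bool) : StrictMono (Q k σ) := by
  refine strictMono_int_of_lt_succ fun j => ?_
  have := gap_ge k hk σ j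
  omega

theorem add_le (k : ℕ) (hk : 1 ≤ k) (σ : Bool) (j : ℤ) (m : ℕ) : Q k σ j + m ≤ Q k σ (j + m) := by
  induction m with
  | zero => simp
  | succ m ih =>
    have h := gap_ge k hk σ (j + m)
    push_cast
    rw [← add_assoc]
    rw [← add_assoc] at *
    omega

theorem exists_next (k : ℕ) (hk : 1 ≤ k) (σ : Bool) (x : ℤ) :
    ∃ j, x ≤ Q k σ j ∧ Q k σ j < x + 3 * k := by
  obtain ⟨j, hj, hmin⟩ := Int.exists_least_of_bdd (P := fun z => x ≤ Q k σ z)
    ⟨min 0 (x - Q k σ 0), fun z hz => by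
      rcases le_total 0 z with h | h
      · exact le_trans (min_le_left _ _) h
      · have h1 := add_le k hk σ z (-z).toNat
        have h2 : z + ((-z).toNat : ℤ) = 0 := by omega
        rw [h2] at h1
        refine le_trans (min_le_right _ _) ?_
        have h3 : ((-z).toNat : ℤ) = -z := by omega
        rw [h3] at h1
        have hz' : x ≤ Q k σ z := hz
        omega⟩
    ⟨(x - Q k σ 0).toNat, by
      have h1 := add_le k hk σ 0 (x - Q k σ 0).toNat
      rw [zero_add] at h1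
      show x ≤ Q k σ ((x - Q k σ 0).toNat : ℤ)
      omega⟩
  refine ⟨j, hj, ?_⟩
  by_contra hcon
  have h1 : x ≤ Q k σ (j - 1) := by
    have h2 := gap_le k hk σ (j - 1)
    rw [sub_add_cancel] at h2
    omega
  have h3 := hmin _ h1
  omega

theorem per_eq_iff (k : ℕ) (σ τ : Bool) (t : ℤ) :
    per0 k σ t = (1, τ) ↔ σ = τ ∧ ∃ j, Q k σ j = t := by
  unfold per0
  split_ifs with h
  · simp [h]
  · simp [h]

theorem per_cases (k : ℕ) (σ : Bool) (t : ℤ) : per0 k σ t = (1, σ) ∨ per0 k σ t = (0, true) := by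
  unfold per0
  split_ifs with h
  · exact Or.inl rfl
  · exact Or.inr rfl

theorem not_between (k : ℕ) (hk : 1 ≤ k) (σ : Bool) (j j' : ℤ) (h1 : Q k σ j < Q k σ j')
    (h2 : Q k σ j' < Q k σ (j + 1)) : False := by
  have h3 := (mono k hk σ).lt_iff_lt.1 h1
  have h4 := (mono k hk σ).lt_iff_lt.1 h2
  omega

theorem same_gap (k : ℕ) (hk : 1 ≤ k) (σ : Bool) (x y u : ℤ) (j j' : ℤ)
    (hx : Q k σ j = x + u) (hy : Q k σ j' = y + u) (hu : 0 ≤ u) (hu3 : u < 3 * k)
    (h : ∀ m : ℕ, m ≤ 6 * k + 2 → per0 k σ (x + m) = per0 k σ (y + m)) :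
    Q k σ (j + 1) - Q k σ j = Q k σ (j' + 1) - Q k σ j' := by
  have key : ∀ (x y : ℤ) (j j' : ℤ), Q k σ j = x + u → Q k σ j' = y + u →
      (∀ m : ℕ, m ≤ 6 * k + 2 → per0 k σ (x + m) = per0 k σ (y + m)) →
      ¬ (Q k σ (j + 1) - Q k σ j < Q k σ (j' + 1) - Q k σ j') := by
    intro x y j j' hx hy h hlt
    have g1 := gap_ge k hk σ j
    have g2 := gap_le k hk σ j
    have h1 := h (Q k σ (j + 1) - x).toNat (by omega)
    have h2 : x + (((Q k σ (j + 1) - x).toNat : ℕ) : ℤ) = Q k σ (j + 1) := by omega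
    rw [h2, (per_eq_iff k σ σ _).2 ⟨rfl, _, rfl⟩] at h1
    obtain ⟨-, j'', hj''⟩ := (per_eq_iff k σ σ _).1 h1.symm
    refine not_between k hk σ j' j'' ?_ ?_
    · omega
    · omega
  have a := key x y j j' hx hy h
  have b := key y x j' j hy hx (fun m hm => (h m hm).symm)
  omega

end I2

theorem per0_next (k : ℕ) (hk : 1 ≤ k) (σ : Bool) (t : ℤ) (ht : per0 k σ t = (1, σ)) :
    per0 k σ (t + 1) = (0, true) := by
  obtain ⟨-, j, hj⟩ := (I2.per_eq_iff k σ σ t).1 ht
  rcases I2.per_cases k σ (t + 1) with h | h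
  · exfalso
    obtain ⟨-, j', hj'⟩ := (I2.per_eq_iff k σ σ _).1 h
    have h1 := I2.gap_ge k hk σ j
    exact I2.not_between k hk σ j j' (by omega) (by omega)
  · exact h

theorem relSys_ex (k : ℕ) (hk : 4000 ≤ k) :
    RelSys (Fin 2) Bool (nn k) (per0 k) (6 * k + 2) where
  periodic := by
    intro σ t
    have hk1 : 1 ≤ k := by omega
    have h : (∃ j, Q k σ j = t + nn k σ) ↔ ∃ j, Q k σ j = t := by
      constructor
      · rintro ⟨j, hj⟩
        refine ⟨j + (-1) * k, ?_⟩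
        rw [Q_add_k k hk1]
        omega
      · rintro ⟨j, hj⟩
        refine ⟨j + 1 * k, ?_⟩
        rw [Q_add_k k hk1]
        omega
    rcases I2.per_cases k σ (t + nn k σ) with h1 | h1 <;> rcases I2.per_cases k σ t with h2 | h2
    · rw [h1, h2]
    · exfalso
      rw [(I2.per_eq_iff k σ σ t).2 ⟨rfl, h.1 ((I2.per_eq_iff k σ σ _).1 h1).2⟩] at h2
      exact absurd (congrArg Prod.fst h2) (by cases σ <;> decide)
    · exfalso
      rw [(I2.per_eq_iff k σ σ _).2 ⟨rfl, h.2 ((I2.per_eq_iff k σ σ _).1 h2).2⟩] at h1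
      exact absurd (congrArg Prod.fst h1) (by cases σ <;> decide)
    · rw [h1, h2]
  red := by
    intro σ t h
    rcases I2.per_cases k σ (t + 1) with h1 | h1 <;> rcases I2.per_cases k σ t with h2 | h2 <;>
      rw [h1, h2] at h
    · have h3 := congrArg Prod.snd h
      revert h3
      cases σ <;> decide
    · exact absurd (congrArg Prod.fst h) (by cases σ <;> decide)
    · exact absurd (congrArg Prod.fst h) (by cases σ <;> decide)
    · exact absurd (congrArg Prod.snd h) (by decide)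
  same := by
    intro σ τ x y h
    have hk1 : 1 ≤ k := by omega
    obtain ⟨j, hj1, hj2⟩ := I2.exists_next k hk1 σ x
    obtain ⟨u, hu⟩ : ∃ u, u = Q k σ j - x := ⟨_, rfl⟩
    have h1 := h u.toNat (by omega)
    have h2 : x + (u.toNat : ℤ) = Q k σ j := by omega
    rw [h2, (I2.per_eq_iff k σ σ _).2 ⟨rfl, _, rfl⟩] at h1
    obtain ⟨hτ, j', hj'⟩ := (I2.per_eq_iff k τ σ _).1 h1.symm
    subst hτ
    have hgap := I2.same_gap k hk1 τ x y u j j' (by omega) (by omega) (by omega) (by omega) h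
    rw [Q_succ k hk1, Q_succ k hk1] at hgap
    have hex : ex k τ ((j + 1) % (k : ℤ)).toNat = ex k τ ((j' + 1) % (k : ℤ)).toNat := by omega
    have hmod : (j + 1) % (k : ℤ) = (j' + 1) % (k : ℤ) := by
      have e1 : (0 : ℤ) ≤ (j + 1) % k := Int.emod_nonneg _ (by omega)
      have e2 : (0 : ℤ) ≤ (j' + 1) % k := Int.emod_nonneg _ (by omega)
      unfold ex at hex
      omega
    have hdvd : (k : ℤ) ∣ j - j' := by
      have := Int.emod_emod_of_dvd
      have h5 : (k : ℤ) ∣ (j + 1) - (j' + 1) := Int.ModEq.dvd hmod.symm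
      have h6 : (j + 1) - (j' + 1) = j - j' := by ring
      rwa [h6] at h5
    obtain ⟨m, hm⟩ := hdvd
    refine ⟨rfl, m, ?_⟩
    have h7 : j = j' + m * k := by linarith [mul_comm (k : ℤ) m]
    have h8 := Q_add_k k hk1 τ j' m
    rw [← h7] at h8
    have h9 : x - y = m * nn k τ := by omega
    rw [h9, mul_comm]
  opp := by
    intro σ τ x y h
    have hk1 : 1 ≤ k := by omega
    have h0 := h 0 (by omega)
    have h1 := h 1 (by omega)
    have a0 : per0 k σ x = (1, σ) := by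
      rcases I2.per_cases k σ x with e | e
      · exact e
      · exfalso
        simp only [Nat.cast_zero, add_zero, sub_zero] at h0
        rw [e] at h0
        rcases I2.per_cases k τ y with e' | e' <;> rw [e'] at h0 <;> simp [flip] at h0
    have a1 := per0_next k hk1 σ x a0
    simp only [Nat.cast_one] at h1
    rw [a1] at h1
    rcases I2.per_cases k τ (y - 1) with e' | e' <;> rw [e'] at h1 <;> simp [flip] at h1
  large := by
    intro σ
    have h1 := nn_ge k σ
    have h2 : 4000 * k ≤ k * k := Nat.mul_le_mul_right k hk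
    omega
  one_le := by omega

end Pool.Agent.Lib.MP_54ccb1_al
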