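import Pool.Agent.Lib.MP_54ccb1_al.Defs

set_option autoImplicit false

namespace Pool.Agent.Lib.MP_54ccb1_al

/-- If a group contains nontrivial `a`, `b`, a closed path labelled by a word in `a, b` without `bb`
and a closed path labelled by a word in `a, b⁻¹` without `b⁻¹b⁻¹`, it has no unique products. -/
theorem not_uniqueProds {G : Type*} [Group G] {a b : G} (ha : a ≠ 1) (hb : b ≠ 1)
    (p q : ℤ → G) (hp : (Set.range p).Finite) (hq : (Set.range q).Finite) (β γ : ℤ → Bool)
    (hs : ∀ i, p (i+1) = p i * (if β i then b else a))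
    (hs2 : ∀ i, β i = true → β (i+1) = false)
    (ht : ∀ j, q (j+1) = q j * (if γ j then b⁻¹ else a))
    (ht2 : ∀ j, γ j = true → γ (j+1) = false) :
    ¬ UniqueProds G := by
  classical
  intro hUP
  have hA : hp.toFinset.Nonempty := ⟨p 0, by simp⟩
  have hB : (hq.toFinset.image (fun x => x⁻¹)).Nonempty := ⟨(q 0)⁻¹, by simp⟩
  obtain ⟨a0, ha0, b0, hb0, hu⟩ := hUP.uniqueMul_of_nonempty hA hB
  simp only [Set.Finite.mem_toFinset, Set.mem_range, Finset.mem_image] at ha0 hb0
  obtain ⟨i, rfl⟩ := ha0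
  obtain ⟨_, ⟨j, rfl⟩, rfl⟩ := hb0
  have key : ∀ x : G, x ≠ 1 → p i * x ∈ Set.range p → q j * x ∈ Set.range q → False := by
    intro x hx h1 h2
    have := hu (a := p i * x) (b := (q j * x)⁻¹) (by simpa using h1)
      (by simp only [Finset.mem_image, Set.Finite.mem_toFinset]; exact ⟨_, h2, rfl⟩)
      (by group)
    exact hx (by simpa using this.1)
  have fwdP := hs i
  have fwdQ := ht j
  have bwdP := hs (i-1)
  have bwdQ := ht (j-1)
  have bP2 := hs2 (i-1)
  have bQ2 := ht2 (j-1)
  simp only [sub_add_cancel] at bwdP bwdQ bP2 bQ2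
  have hp1 : p (i+1) ∈ Set.range p := ⟨_, rfl⟩
  have hp2 : p (i-1) ∈ Set.range p := ⟨_, rfl⟩
  have hq1 : q (j+1) ∈ Set.range q := ⟨_, rfl⟩
  have hq2 : q (j-1) ∈ Set.range q := ⟨_, rfl⟩
  have hb' : b⁻¹ ≠ 1 := by simpa using hb
  have ha' : a⁻¹ ≠ 1 := by simpa using ha
  -- backward at p
  cases h1 : β (i-1) with
  | false =>
    have e1' : p (i-1) = p i * a⁻¹ := by rw [bwdP, h1]; simp
    rw [e1'] at hp2
    cases h2 : γ (j-1) with
    | false =>
      have e2' : q (j-1) = q j * a⁻¹ := by rw [bwdQ, h2]; simp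
      rw [e2'] at hq2
      exact key _ ha' hp2 hq2
    | true =>
      have e2' : q (j-1) = q j * b := by rw [bwdQ, h2]; simp
      have e3 : q (j+1) = q j * a := by rw [fwdQ, bQ2 h2]; simp
      rw [e2'] at hq2
      rw [e3] at hq1
      cases h3 : β i with
      | false =>
        have e4 : p (i+1) = p i * a := by rw [fwdP, h3]; simp
        rw [e4] at hp1; exact key _ ha hp1 hq1
      | true =>
        have e4 : p (i+1) = p i * b := by rw [fwdP, h3]; simp
        rw [e4] at hp1; exact key _ hb hp1 hq2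
  | true =>
    have e1' : p (i-1) = p i * b⁻¹ := by rw [bwdP, h1]; simp
    have e3 : p (i+1) = p i * a := by rw [fwdP, bP2 h1]; simp
    rw [e1'] at hp2
    rw [e3] at hp1
    cases h2 : γ j with
    | false =>
      have e2 : q (j+1) = q j * a := by rw [fwdQ, h2]; simp
      rw [e2] at hq1; exact key _ ha hp1 hq1
    | true =>
      have e2 : q (j+1) = q j * b⁻¹ := by rw [fwdQ, h2]; simp
      rw [e2] at hq1; exact key _ hb' hp2 hq1

end Pool.Agent.Lib.MP_54ccb1_al
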