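import Pool.Agent.Lib.MP_54ccb1_al.J
import Pool.Agent.Lib.MP_54ccb1_al.D
import Pool.Agent.Lib.MP_54ccb1_al.G3
import Pool.Agent.Lib.MP_54ccb1_al.I2

set_option autoImplicit false

namespace Pool.Agent.Lib.MP_54ccb1_al

namespace J2

theorem finite_range {G : Type*} (p : ℤ → G) (n : ℕ) (hn : 0 < n) (hp : ∀ t, p (t + n) = p t) :
    (Set.range p).Finite := by
  have hper : Function.Periodic p (n : ℤ) := hp
  refine ((Set.finite_Ico (0 : ℤ) n).image p).subset ?_
  rintro _ ⟨t, rfl⟩
  have hn' : (0 : ℤ) < n := by exact_mod_cast hn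
  refine ⟨t % n, ⟨Int.emod_nonneg _ hn'.ne', Int.emod_lt_of_pos _ hn'⟩, ?_⟩
  have h1 : t % n + (t / n) * n = t := by rw [mul_comm]; exact Int.emod_add_mul_ediv t n
  have h2 := hper.int_mul (t / n) (t % n)
  simp only [Int.cast_id] at h2
  rw [h1] at h2
  exact h2.symm

end J2

theorem not_up (k : ℕ) (hk : 4000 ≤ k) :
    ¬ UniqueProds (PresentedGroup (Set.range (relr (nn k) (per0 k)))) := by
  classical
  have hR := relSys_ex k hk
  have hne : ∀ i : Fin 2, PresentedGroup.mk (Set.range (relr (nn k) (per0 k))) (FreeGroup.of i) ≠ 1 := by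
    intro i h1
    exact of_not_mem hR i (PresentedGroup.mk_eq_one_iff.1 h1)
  have hper : ∀ (σ : Bool) (t : ℤ),
      PresentedGroup.mk (Set.range (relr (nn k) (per0 k))) (ell (per0 k σ) (t + nn k σ)) =
        PresentedGroup.mk (Set.range (relr (nn k) (per0 k))) (ell (per0 k σ) t) := by
    intro σ t
    rw [ell_period _ _ (hR.periodic σ) t, map_mul]
    have : PresentedGroup.mk (Set.range (relr (nn k) (per0 k))) (ell (per0 k σ) (nn k σ)) = 1 :=
      PresentedGroup.one_of_mem ⟨σ, rfl⟩
    rw [this, one_mul]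
  have hpos : ∀ σ, 0 < nn k σ := fun σ => lt_of_le_of_lt (Nat.zero_le _) (hR.large σ)
  have hlet : ∀ (σ : Bool) (t : ℤ), per0 k σ t = (1, σ) ∨ per0 k σ t = (0, true) := by
    intro σ t
    unfold per0
    split_ifs
    · exact Or.inl rfl
    · exact Or.inr rfl
  have hne2 : ∀ σ : Bool, ((0 : Fin 2), true) ≠ (1, σ) := by
    intro σ h; simpa using congrArg Prod.fst h
  refine not_uniqueProds (hne 0) (hne 1)
    (fun t => PresentedGroup.mk (Set.range (relr (nn k) (per0 k))) (ell (per0 k true) t))
    (fun t => PresentedGroup.mk (Set.range (relr (nn k) (per0 k))) (ell (per0 k false) t))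
    (J2.finite_range _ _ (hpos true) (hper true)) (J2.finite_range _ _ (hpos false) (hper false))
    (fun t => decide (per0 k true t = (1, true))) (fun t => decide (per0 k false t = (1, false)))
    ?_ ?_ ?_ ?_
  · intro t
    simp only [ell_succ, map_mul, decide_eq_true_eq]
    rcases hlet true t with h | h
    · rw [h, if_pos rfl]; rfl
    · rw [h, if_neg (hne2 true)]; rfl
  · intro t ht
    simp only [decide_eq_true_eq, decide_eq_false_iff_not] at ht ⊢
    rw [per0_next k (by omega) true t ht]
    exact hne2 true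
  · intro t
    simp only [ell_succ, map_mul, decide_eq_true_eq]
    rcases hlet false t with h | h
    · rw [h, if_pos rfl, ← map_inv]; rfl
    · rw [h, if_neg (hne2 false)]; rfl
  · intro t ht
    simp only [decide_eq_true_eq, decide_eq_false_iff_not] at ht ⊢
    rw [per0_next k (by omega) false t ht]
    exact hne2 false

end Pool.Agent.Lib.MP_54ccb1_al
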